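import Pool.Agent.Work.MP_63d28d_an.Psh

open Real Metric Set Filter Topology

namespace Pool.Agent.Work.MP_63d28d_an

lemma LSM_sub_log {h : ℂ → ℝ} {U : Set ℂ} (hU : IsOpen U) (hc : ContinuousOn h U) {z a : ℂ}
    (hz : z ∈ U) (hza : z ≠ a) (hL : LSM h z) (C ε : ℝ) :
    LSM (fun w => h w - (C + ε * log ‖w - a‖)) z := by
  obtain ⟨r0, hr0, h0⟩ := hL
  obtain ⟨r1, hr1, h1⟩ := Metric.isOpen_iff.1 hU z hz
  have hpos : 0 < ‖z - a‖ := norm_pos_iff.2 (sub_ne_zero.2 hza)
  refine ⟨min r0 (min r1 ‖z - a‖), lt_min hr0 (lt_min hr1 hpos), fun r hr hrr => ?_⟩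
  have hr0' : r < r0 := lt_of_lt_of_le hrr (min_le_left _ _)
  have hr1' : r < r1 := lt_of_lt_of_le hrr ((min_le_right _ _).trans (min_le_left _ _))
  have hr2' : r < ‖z - a‖ := lt_of_lt_of_le hrr ((min_le_right _ _).trans (min_le_right _ _))
  have key : circleAverage (fun w => log ‖w - a‖) z r = log ‖z - a‖ := by
    apply InnerProductSpace.HarmonicOnNhd.circleAverage_eq (f := fun w : ℂ => log ‖w - a‖)
    intro x hx
    apply AnalyticAt.harmonicAt_log_norm (by fun_prop)
    intro h3
    rw [mem_closedBall, dist_eq_norm, abs_of_pos hr] at hx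
    rw [sub_eq_zero.1 h3] at hx
    rw [norm_sub_rev] at hx
    linarith
  have hne : ∀ w ∈ sphere z r, ‖w - a‖ ≠ 0 := by
    intro w hw h3
    rw [norm_eq_zero, sub_eq_zero] at h3
    rw [h3, mem_sphere, dist_eq_norm, norm_sub_rev] at hw
    linarith
  have i1 : CircleIntegrable h z r := circleIntegrable_of_sphere hr.le (hc.mono (fun w hw => h1 (by
    rw [mem_ball]; rw [mem_sphere] at hw; linarith)))
  have i2 : CircleIntegrable (fun w => log ‖w - a‖) z r := by
    apply circleIntegrable_of_sphere hr.le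
    exact ContinuousOn.log (by fun_prop) hne
  have i3 : CircleIntegrable (fun w => ε * log ‖w - a‖) z r := by
    have := i2.const_fun_smul (a := ε)
    simpa [smul_eq_mul] using this
  have i4 : CircleIntegrable (fun _ : ℂ => C) z r :=
    circleIntegrable_of_sphere hr.le continuousOn_const
  have i5 : CircleIntegrable (fun w => C + ε * log ‖w - a‖) z r := i4.add i3
  have e1 : circleAverage (fun w => ε * log ‖w - a‖) z r = ε * log ‖z - a‖ := by
    have := circleAverage_fun_smul (c := z) (R := r) (a := ε) (f := fun w : ℂ => log ‖w - a‖)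
    simp only [smul_eq_mul] at this
    rw [this, key]
  rw [circleAverage_fun_sub i1 i5, circleAverage_fun_add i4 i3, circleAverage_const, e1]
  have := h0 r hr hr0'
  linarith

lemma isCompact_annulus (a : ℂ) (δ R : ℝ) : IsCompact {w : ℂ | δ ≤ ‖w - a‖ ∧ ‖w - a‖ ≤ R} := by
  have h : {w : ℂ | δ ≤ ‖w - a‖ ∧ ‖w - a‖ ≤ R} = closedBall a R ∩ {w : ℂ | δ ≤ ‖w - a‖} := by
    ext w
    simp only [mem_ofPred_eq, mem_inter_iff, mem_closedBall, dist_eq_norm]
    tauto
  rw [h]
  exact (isCompact_closedBall a R).inter_right (isClosed_le continuous_const (by fun_prop))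

/-- comparison with the logarithm on an annulus -/
lemma annulus_le {h : ℂ → ℝ} {U : Set ℂ} (hU : IsOpen U) (hc : ContinuousOn h U)
    (hL : ∀ z ∈ U, LSM h z) {a : ℂ} {δ R : ℝ} (hδ : 0 < δ)
    (hin : ∀ w, δ ≤ ‖w - a‖ → ‖w - a‖ ≤ R → w ∈ U) {C ε : ℝ}
    (h1 : ∀ w, ‖w - a‖ = δ → h w ≤ C + ε * log δ)
    (h2 : ∀ w, ‖w - a‖ = R → h w ≤ C + ε * log R) :
    ∀ w, δ ≤ ‖w - a‖ → ‖w - a‖ ≤ R → h w ≤ C + ε * log ‖w - a‖ := by
  intro w hw1 hw2
  have hne : ∀ w ∈ {w : ℂ | δ ≤ ‖w - a‖ ∧ ‖w - a‖ ≤ R}, ‖w - a‖ ≠ 0 := by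
    intro w hw h0
    have := hw.1
    rw [h0] at this
    linarith
  have := max_principle (isCompact_annulus a δ R) (f := fun w => h w - (C + ε * log ‖w - a‖))
    ((hc.mono (fun w hw => hin w hw.1 hw.2)).sub
      (continuousOn_const.add (continuousOn_const.mul (ContinuousOn.log (by fun_prop) hne))))
    (by
      intro z hz hfz
      have hz1 : δ < ‖z - a‖ := by
        rcases hz.1.lt_or_eq with h | h
        · exact h
        · exfalso
          have := h1 z h.symm
          rw [h] at this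
          linarith
      have hz2 : ‖z - a‖ < R := by
        rcases hz.2.lt_or_eq with h | h
        · exact h
        · exfalso
          have := h2 z h
          rw [← h] at this
          linarith
      refine ⟨?_, ?_⟩
      · rw [mem_interior]
        refine ⟨{w : ℂ | δ < ‖w - a‖ ∧ ‖w - a‖ < R}, fun w hw => ⟨hw.1.le, hw.2.le⟩, ?_, ⟨hz1, hz2⟩⟩
        have hcn : Continuous (fun w : ℂ => ‖w - a‖) := by fun_prop
        exact (isOpen_lt continuous_const hcn).inter (isOpen_lt hcn continuous_const)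
      · refine LSM_sub_log hU hc (hin z hz.1 hz.2) ?_ (hL z (hin z hz.1 hz.2)) C ε
        rintro rfl
        rw [sub_self, norm_zero] at hz1
        linarith) w ⟨hw1, hw2⟩
  linarith

/-- Liouville's theorem for subharmonic functions bounded above -/
theorem liouville_le {h : ℂ → ℝ} (hc : Continuous h) (hL : ∀ z, LSM h z) {B : ℝ}
    (hB : ∀ z, h z ≤ B) (a z : ℂ) : h z ≤ h a := by
  by_cases hza : z = a
  · rw [hza]
  refine le_of_forall_pos_le_add (fun η hη => ?_)
  have hpos : 0 < ‖z - a‖ := norm_pos_iff.2 (sub_ne_zero.2 hza)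
  obtain ⟨δ0, hδ0, hδ⟩ := Metric.continuous_iff.1 hc a η hη
  set δ := min δ0 ‖z - a‖ / 2 with hδdef
  have hδpos : 0 < δ := by positivity
  have hδ1 : δ < δ0 := by
    have := min_le_left δ0 ‖z - a‖
    have : 0 < min δ0 ‖z - a‖ := by positivity
    linarith
  have hδ2 : δ < ‖z - a‖ := by
    have := min_le_right δ0 ‖z - a‖
    have : 0 < min δ0 ‖z - a‖ := by positivity
    linarith
  have hm : ∀ w, ‖w - a‖ = δ → h w ≤ h a + η := by
    intro w hw
    have := hδ w (by rw [dist_eq_norm, hw]; exact hδ1)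
    rw [dist_eq_norm, norm_eq_abs, abs_lt] at this
    linarith [this.2]
  -- for every ε > 0
  have key : ∀ ε : ℝ, 0 < ε → h z ≤ h a + η + ε * (log ‖z - a‖ - log δ) := by
    intro ε hε
    -- choose R
    set R := max ‖z - a‖ (δ * Real.exp ((B - (h a + η)) / ε)) with hR
    have hR1 : ‖z - a‖ ≤ R := le_max_left _ _
    have hR2 : δ * Real.exp ((B - (h a + η)) / ε) ≤ R := le_max_right _ _
    have hlog : log δ + (B - (h a + η)) / ε ≤ log R := by
      have := Real.log_le_log (by positivity) hR2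
      rw [Real.log_mul hδpos.ne' (Real.exp_pos _).ne', Real.log_exp] at this
      exact this
    have h3 : B ≤ (h a + η - ε * log δ) + ε * log R := by
      have := mul_le_mul_of_nonneg_left hlog hε.le
      rw [mul_add, mul_div_cancel₀ _ hε.ne'] at this
      linarith
    have := annulus_le isOpen_univ hc.continuousOn (fun z _ => hL z) (a := a) (R := R) hδpos
      (fun _ _ _ => mem_univ _) (C := h a + η - ε * log δ) (ε := ε)
      (fun w hw => by linarith [hm w hw]) (fun w _ => (hB w).trans h3) z hδ2.le hR1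
    linarith
  -- let ε → 0
  have hlogpos : 0 ≤ log ‖z - a‖ - log δ := by
    have := Real.log_le_log hδpos hδ2.le
    linarith
  refine le_of_forall_pos_le_add (fun ε hε => ?_)
  have h4 := key (ε / (log ‖z - a‖ - log δ + 1)) (by positivity)
  have h5 : ε / (log ‖z - a‖ - log δ + 1) * (log ‖z - a‖ - log δ) ≤ ε := by
    rw [div_mul_eq_mul_div, div_le_iff₀ (by positivity)]
    nlinarith
  linarith

theorem liouville {h : ℂ → ℝ} (hc : Continuous h) (hL : ∀ z, LSM h z) {B : ℝ}
    (hB : ∀ z, h z ≤ B) (a z : ℂ) : h z = h a :=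
  le_antisymm (liouville_le hc hL hB a z) (liouville_le hc hL hB z a)

lemma LSM_line {E : Type*} [NormedAddCommGroup E] [NormedSpace ℂ E] {F : E → ℝ} {a b : E} {z : ℂ}
    (h : LP F (a + z • b)) : LSM (fun t : ℂ => F (a + t • b)) z := by
  obtain ⟨r0, hr0, h0⟩ := h b
  refine ⟨r0, hr0, fun r hr hrr => ?_⟩
  have h1 := h0 r hr hrr
  rw [← circleAverage_map_add_const (c := z)]
  have e : (fun t : ℂ => F (a + (t + z) • b)) = fun t : ℂ => F (a + z • b + t • b) := by
    ext t
    rw [add_smul]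
    congr 1
    abel
  rw [e]
  exact h1

/-- a plurisubharmonic function bounded above is constant on complex lines -/
lemma line_const {E : Type*} [NormedAddCommGroup E] [NormedSpace ℂ E] {Ω : Set E} (hΩ : IsOpen Ω)
    {F : E → ℝ} (hF : IsPSH Ω F) {B : ℝ} (hB : ∀ x ∈ Ω, F x ≤ B) {a b : E}
    (hab : ∀ t : ℂ, a + t • b ∈ Ω) (t : ℂ) : F (a + t • b) = F a := by
  have := liouville (h := fun t : ℂ => F (a + t • b))
    (hF.1.comp_continuous (by fun_prop) hab)
    (fun z => LSM_line (hF.lp hΩ (hab z))) (fun z => hB _ (hab z)) 0 t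
  simpa using this

/-- Hopf type lemma: there is a point on the circle `|t| = 1/2` at which the radial derivative of
`u` does not vanish -/
theorem hopf {u : ℂ → ℝ} (hc : ContinuousOn u (ball 0 1)) (hL : ∀ z ∈ ball (0:ℂ) 1, LSM u z)
    {δ : ℝ} (hδ : 0 < δ) (hδ2 : δ < 1 / 2)
    (hstrict : ∀ c : ℝ, (∀ z : ℂ, ‖z‖ ≤ 1 / 2 → u z ≤ c) → ∀ z : ℂ, ‖z‖ = δ → u z < c) :
    ∃ x0 : ℂ, ‖x0‖ = 1 / 2 ∧ ¬ HasDerivAt (fun s : ℝ => u ((s:ℂ) * x0)) 0 1 := by
  have hsub : closedBall (0:ℂ) (1 / 2) ⊆ ball 0 1 := closedBall_subset_ball (by norm_num)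
  have hsph : sphere (0:ℂ) (1 / 2) ⊆ ball 0 1 := sphere_subset_closedBall.trans hsub
  obtain ⟨x0, hx0, hmax⟩ := (isCompact_sphere (0:ℂ) (1 / 2)).exists_isMaxOn
    (NormedSpace.sphere_nonempty.2 (by norm_num)) (hc.mono hsph)
  have hx0n : ‖x0‖ = 1 / 2 := by simpa using hx0
  refine ⟨x0, hx0n, fun hder => ?_⟩
  set c := u x0 with hcdef
  have hle : ∀ z : ℂ, ‖z‖ ≤ 1 / 2 → u z ≤ c := by
    intro z hz
    have := max_principle (isCompact_closedBall (0:ℂ) (1 / 2)) (f := fun w => u w - c)
      ((hc.mono hsub).sub continuousOn_const) (by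
        intro w hw hfw
        have hw1 : ‖w‖ < 1 / 2 := by
          rcases (mem_closedBall_zero_iff.1 hw).lt_or_eq with h | h
          · exact h
          · exfalso
            have := hmax (show w ∈ sphere (0:ℂ) (1 / 2) by simpa using h)
            simp only [mem_ofPred_eq] at this
            linarith
        refine ⟨?_, ?_⟩
        · rw [mem_interior_iff_mem_nhds]
          exact Filter.mem_of_superset (isOpen_ball.mem_nhds (by simpa using hw1)) ball_subset_closedBall
        · obtain ⟨r0, hr0, h0⟩ := hL w (hsub hw)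
          obtain ⟨r1, hr1, h1⟩ := Metric.isOpen_iff.1 isOpen_ball w (hsub hw)
          refine ⟨min r0 r1, lt_min hr0 hr1, fun r hr hrr => ?_⟩
          have hr0' : r < r0 := lt_of_lt_of_le hrr (min_le_left _ _)
          have hr1' : r < r1 := lt_of_lt_of_le hrr (min_le_right _ _)
          have i1 : CircleIntegrable u w r := circleIntegrable_of_sphere hr.le
            (hc.mono (fun z hz => h1 (by rw [mem_ball]; rw [mem_sphere] at hz; linarith)))
          have i2 : CircleIntegrable (fun _ : ℂ => c) w r :=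
            circleIntegrable_of_sphere hr.le continuousOn_const
          rw [circleAverage_fun_sub i1 i2, circleAverage_const]
          have := h0 r hr hr0'
          linarith) z (by simpa using hz)
    linarith
  -- maximum on the small circle
  have hsph2 : sphere (0:ℂ) δ ⊆ ball 0 1 := fun z hz => by
    rw [mem_ball_zero_iff]
    have : ‖z‖ = δ := by simpa using hz
    linarith
  obtain ⟨x1, hx1, hmax1⟩ := (isCompact_sphere (0:ℂ) δ).exists_isMaxOn
    (NormedSpace.sphere_nonempty.2 hδ.le) (hc.mono hsph2)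
  set m := u x1 with hm
  have hmc : m < c := hstrict c hle x1 (by simpa using hx1)
  have hlog : 0 < log (1 / 2) - log δ := by
    have := Real.log_lt_log hδ hδ2
    linarith
  set μ := (c - m) / (log (1 / 2) - log δ) with hμ
  have hμpos : 0 < μ := div_pos (by linarith) hlog
  have hμm : μ * (log (1 / 2) - log δ) = c - m := by
    rw [hμ, div_mul_cancel₀ _ hlog.ne']
  have hann := annulus_le isOpen_ball hc hL (a := 0) (δ := δ) (R := 1 / 2) hδ
    (fun w _ hw => hsub (by simpa using hw)) (C := c - μ * log (1 / 2)) (ε := μ)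
    (fun w hw => by
      have h1 := hmax1 (show w ∈ sphere (0:ℂ) δ by simpa using hw)
      simp only [mem_ofPred_eq] at h1
      nlinarith)
    (fun w hw => by
      have h1 := hle w (by simpa using hw.le)
      linarith)
  have hs : ∀ s : ℝ, 2 * δ < s → s < 1 → u ((s:ℂ) * x0) ≤ c + μ * (s - 1) := by
    intro s hs1 hs2
    have hspos : 0 < s := by linarith
    have hn : ‖(s:ℂ) * x0‖ = s / 2 := by
      rw [norm_mul, hx0n, Complex.norm_real, norm_eq_abs, abs_of_pos hspos]; ring
    have h1 := hann ((s:ℂ) * x0) (by rw [sub_zero, hn]; linarith) (by rw [sub_zero, hn]; linarith)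
    rw [sub_zero, hn] at h1
    have h2 : log (s / 2) = log s + log (1 / 2) := by
      rw [← Real.log_mul hspos.ne' (by norm_num)]
      congr 1
      ring
    rw [h2] at h1
    have h3 := Real.log_le_sub_one_of_pos hspos
    nlinarith
  -- derivative
  have hder2 : HasDerivAt (fun s : ℝ => u ((s:ℂ) * x0) - μ * s) (0 - μ * 1) 1 :=
    hder.sub ((hasDerivAt_id (1:ℝ)).const_mul μ)
  rw [hasDerivAt_iff_tendsto_slope] at hder2
  have hder3 := hder2.mono_left (nhdsWithin_mono 1 (show Iio (1:ℝ) ⊆ {1}ᶜ from fun x hx => by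
    simp only [mem_compl_iff, mem_singleton_iff]
    exact ne_of_lt hx))
  have hge : ∀ᶠ s in 𝓝[<] (1:ℝ), 0 ≤ slope (fun s : ℝ => u ((s:ℂ) * x0) - μ * s) 1 s := by
    have h4 : Ioo (2 * δ) 1 ∈ 𝓝[<] (1:ℝ) := Ioo_mem_nhdsLT (by linarith)
    filter_upwards [h4] with s hs'
    rw [slope_def_field]
    apply div_nonneg_of_nonpos
    · have := hs s hs'.1 hs'.2
      simp only [Complex.ofReal_one, one_mul, mul_one]
      rw [← hcdef]
      linarith
    · linarith [hs'.2]
  have := ge_of_tendsto hder3 hge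
  linarith

end Pool.Agent.Work.MP_63d28d_an
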