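import Mathlib

open Real Metric Set Filter Topology

namespace Pool.Agent.Work.MP_63d28d_an

/-- If `f ≤ M` on a circle and the average of `f` is at least `M`, then `f = M` on the circle. -/
lemma eq_of_le_circleAverage {f : ℂ → ℝ} {c : ℂ} {r M : ℝ} (hr : 0 < r)
    (hf : ContinuousOn f (sphere c r)) (hle : ∀ z ∈ sphere c r, f z ≤ M)
    (h : M ≤ circleAverage f c r) : ∀ z ∈ sphere c r, f z = M := by
  by_contra hcon
  push Not at hcon
  obtain ⟨z0, hz0, hne⟩ := hcon
  have hlt : f z0 < M := lt_of_le_of_ne (hle z0 hz0) hne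
  have himg : circleMap c r '' Set.Ioc 0 (2 * π) = sphere c |r| := image_circleMap_Ioc c r
  rw [abs_of_pos hr] at himg
  rw [← himg] at hz0
  obtain ⟨θ0, hθ0, rfl⟩ := hz0
  have hcont : Continuous (fun θ : ℝ => M - f (circleMap c r θ)) := by
    refine continuous_const.sub ?_
    exact hf.comp_continuous (continuous_circleMap c r) (fun θ => circleMap_mem_sphere c hr.le θ)
  have hpos : 0 < ∫ θ in (0:ℝ)..(2 * π), (M - f (circleMap c r θ)) := by
    refine intervalIntegral.integral_pos (by positivity) hcont.continuousOn ?_ ?_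
    · intro x _
      have := hle _ (circleMap_mem_sphere c hr.le x)
      linarith
    · exact ⟨θ0, ⟨hθ0.1.le, hθ0.2⟩, by linarith⟩
  have hcont2 : Continuous (fun θ : ℝ => f (circleMap c r θ)) :=
    hf.comp_continuous (continuous_circleMap c r) (fun θ => circleMap_mem_sphere c hr.le θ)
  rw [intervalIntegral.integral_sub (by simp) (hcont2.intervalIntegrable _ _)] at hpos
  rw [circleAverage_def] at h
  simp only [intervalIntegral.integral_const, sub_zero, smul_eq_mul] at hpos h
  have hpi : 0 < 2 * π := by positivity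
  have : 2 * π * M ≤ ∫ θ in (0:ℝ)..(2 * π), f (circleMap c r θ) := by
    calc 2 * π * M ≤ 2 * π * ((2 * π)⁻¹ * ∫ θ in (0:ℝ)..(2 * π), f (circleMap c r θ)) := by
          gcongr
      _ = _ := by field_simp
  linarith

/-- Local sub-mean value property at a point. -/
def LSM (f : ℂ → ℝ) (z : ℂ) : Prop :=
  ∃ r0 > 0, ∀ r, 0 < r → r < r0 → f z ≤ circleAverage f z r

/-- A maximum principle. -/
lemma max_principle {S : Set ℂ} (hS : IsCompact S) {f : ℂ → ℝ} (hf : ContinuousOn f S)
    (h : ∀ z ∈ S, 0 < f z → z ∈ interior S ∧ LSM f z) : ∀ z ∈ S, f z ≤ 0 := by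
  by_contra hcon
  push Not at hcon
  obtain ⟨z1, hz1, hf1⟩ := hcon
  obtain ⟨z0, hz0, hmax⟩ := hS.exists_isMaxOn ⟨z1, hz1⟩ hf
  set M := f z0 with hM
  have hMpos : 0 < M := lt_of_lt_of_le hf1 (hmax hz1)
  set T := S ∩ f ⁻¹' {M} with hT
  have hTc : IsClosed T := hf.preimage_isClosed_of_isClosed hS.isClosed isClosed_singleton
  have hTk : IsCompact T := hS.of_isClosed_subset hTc inter_subset_left
  obtain ⟨z2, hz2, hre⟩ := hTk.exists_isMaxOn ⟨z0, hz0, rfl⟩ Complex.continuous_re.continuousOn
  have hz2M : f z2 = M := hz2.2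
  obtain ⟨hint, r0, hr0, hsub⟩ := h z2 hz2.1 (by rw [hz2M]; exact hMpos)
  obtain ⟨δ, hδ, hball⟩ := Metric.mem_nhds_iff.1 (mem_interior_iff_mem_nhds.1 hint)
  set r := min δ r0 / 2 with hr
  have hrpos : 0 < r := by positivity
  have hrδ : r < δ := by
    have := min_le_left δ r0
    rw [hr]; linarith
  have hrr0 : r < r0 := by
    have := min_le_right δ r0
    rw [hr]; linarith
  have hsph : sphere z2 r ⊆ S := fun z hz => hball (by
    rw [mem_ball]; rw [mem_sphere] at hz; linarith)
  have key := eq_of_le_circleAverage hrpos (hf.mono hsph) (fun z hz => hmax (hsph hz))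
    (by have := hsub r hrpos hrr0; rw [hz2M] at this; exact this)
  have hz3 : z2 + (r:ℂ) ∈ sphere z2 r := by
    rw [mem_sphere, dist_eq_norm]
    simp [abs_of_pos hrpos]
  have hz3T : z2 + (r:ℂ) ∈ T := ⟨hsph hz3, key _ hz3⟩
  have h4 : (z2 + (r:ℂ)).re ≤ z2.re := hre hz3T
  simp at h4
  linarith

lemma circleAverage_re_poly (P : Polynomial ℂ) (c : ℂ) (r : ℝ) :
    circleAverage (fun z => (P.eval z).re) c r = (P.eval c).re := by
  apply InnerProductSpace.HarmonicOnNhd.circleAverage_eq (f := fun z => (P.eval z).re)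
  intro x _
  have hA : AnalyticAt ℂ (fun z => P.eval z) x := by
    have : Differentiable ℂ (fun z => P.eval z) := P.differentiable
    exact this.analyticAt x
  exact hA.harmonicAt_re

lemma fourier_eq (n : ℤ) (θ : ℝ) :
    (fourier n : C(AddCircle (2 * π), ℂ)) (θ : AddCircle (2 * π)) = (Complex.exp (θ * Complex.I)) ^ n := by
  rw [fourier_coe_apply]
  rw [← Complex.exp_int_mul]
  congr 1
  push_cast
  field_simp

lemma trig_span (g : C(AddCircle (2 * π), ℂ)) (hg : g ∈ Submodule.span ℂ (Set.range (@fourier (2 * π)))) :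
    ∃ P Q : Polynomial ℂ, ∀ θ : ℝ, g (θ : AddCircle (2 * π)) =
      P.eval (Complex.exp (θ * Complex.I)) + (starRingEnd ℂ) (Q.eval (Complex.exp (θ * Complex.I))) := by
  induction hg using Submodule.span_induction with
  | mem x hx =>
    obtain ⟨n, rfl⟩ := hx
    obtain ⟨m, rfl | rfl⟩ := n.eq_nat_or_neg
    · refine ⟨Polynomial.X ^ m, 0, fun θ => ?_⟩
      rw [fourier_eq]
      simp
    · refine ⟨0, Polynomial.X ^ m, fun θ => ?_⟩
      rw [fourier_eq]
      simp only [zpow_neg, zpow_natCast, Polynomial.eval_zero, Polynomial.eval_pow, Polynomial.eval_X, map_pow,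
        zero_add]
      rw [← inv_pow]
      congr 1
      rw [← Complex.exp_neg, ← Complex.exp_conj]
      congr 1
      simp
  | zero => exact ⟨0, 0, fun θ => by simp⟩
  | add x y _ _ hx hy =>
    obtain ⟨P, Q, h⟩ := hx
    obtain ⟨P', Q', h'⟩ := hy
    refine ⟨P + P', Q + Q', fun θ => ?_⟩
    rw [ContinuousMap.add_apply, h, h']
    simp only [Polynomial.eval_add, map_add]
    ring
  | smul a x _ hx =>
    obtain ⟨P, Q, h⟩ := hx
    refine ⟨Polynomial.C a * P, Polynomial.C ((starRingEnd ℂ) a) * Q, fun θ => ?_⟩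
    rw [ContinuousMap.smul_apply, h]
    simp only [Polynomial.eval_mul, Polynomial.eval_C, map_mul, smul_eq_mul, Complex.conj_conj]
    ring

lemma trig_approx {h : ℂ → ℝ} (hc : ContinuousOn h (sphere 0 1)) {ε : ℝ} (hε : 0 < ε) :
    ∃ P : Polynomial ℂ, ∀ z ∈ sphere (0:ℂ) 1, |h z - (P.eval z).re| < ε := by
  have : Fact (0 < 2 * π) := ⟨by positivity⟩
  -- the function on the circle
  have hcont : Continuous (fun θ : ℝ => ((h (Complex.exp (θ * Complex.I)) : ℝ) : ℂ)) := by
    refine Complex.continuous_ofReal.comp ?_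
    refine hc.comp_continuous (by fun_prop) (fun θ => ?_)
    simp [Complex.norm_exp_ofReal_mul_I]
  have hper : Function.Periodic (fun θ : ℝ => ((h (Complex.exp (θ * Complex.I)) : ℝ) : ℂ)) (2 * π) := by
    intro θ
    have : Complex.exp (((θ + 2 * π : ℝ) : ℂ) * Complex.I) = Complex.exp (θ * Complex.I) := by
      push_cast
      rw [add_mul, Complex.exp_add, Complex.exp_two_pi_mul_I, mul_one]
    simp only [this]
  let g : C(AddCircle (2 * π), ℂ) := ⟨hper.lift, by
    exact continuous_coinduced_dom.mpr hcont⟩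
  have hgd : g ∈ (Submodule.span ℂ (Set.range (@fourier (2 * π)))).topologicalClosure := by
    rw [span_fourier_closure_eq_top]; trivial
  have hgd' : g ∈ closure ((Submodule.span ℂ (Set.range (@fourier (2 * π)))) : Set C(AddCircle (2 * π), ℂ)) := hgd
  rw [Metric.mem_closure_iff] at hgd'
  obtain ⟨g', hg', hdist⟩ := hgd' ε hε
  obtain ⟨P, Q, hPQ⟩ := trig_span g' hg'
  refine ⟨P + Q, fun z hz => ?_⟩
  have hzn : ‖z‖ = 1 := by simpa using hz
  have hzexp : z = Complex.exp ((Complex.arg z : ℝ) * Complex.I) := by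
    have := Complex.norm_mul_exp_arg_mul_I z
    rw [hzn] at this
    simpa using this.symm
  have h1 : g ((Complex.arg z : ℝ) : AddCircle (2 * π)) = ((h z : ℝ) : ℂ) := by
    have : g ((Complex.arg z : ℝ) : AddCircle (2 * π)) =
        ((h (Complex.exp ((Complex.arg z : ℝ) * Complex.I)) : ℝ) : ℂ) := rfl
    rw [this, ← hzexp]
  have h2 := hPQ (Complex.arg z)
  rw [← hzexp] at h2
  have h3 : ‖g ((Complex.arg z : ℝ) : AddCircle (2 * π)) - g' ((Complex.arg z : ℝ) : AddCircle (2 * π))‖ < ε := by
    have h := ContinuousMap.dist_apply_le_dist (f := g) (g := g') ((Complex.arg z : ℝ) : AddCircle (2 * π))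
    rw [dist_eq_norm] at h
    exact lt_of_le_of_lt h hdist
  rw [h1, h2] at h3
  have h4 := Complex.abs_re_le_norm (((h z : ℝ) : ℂ) - (P.eval z + (starRingEnd ℂ) (Q.eval z)))
  simp only [Complex.sub_re, Complex.ofReal_re, Complex.add_re, Complex.conj_re] at h4
  simp only [Polynomial.eval_add, Complex.add_re]
  linarith

lemma circleIntegrable_of_sphere {f : ℂ → ℝ} {c : ℂ} {r : ℝ} (hr : 0 ≤ r)
    (hf : ContinuousOn f (sphere c r)) : CircleIntegrable f c r :=
  hf.circleIntegrable hr

/-- Local sub-mean value property implies the global one. -/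
theorem local_to_global {h : ℂ → ℝ} (hc : ContinuousOn h (closedBall 0 1))
    (hl : ∀ z ∈ ball (0:ℂ) 1, LSM h z) : h 0 ≤ circleAverage h 0 1 := by
  refine le_of_forall_pos_le_add (fun ε hε => ?_)
  have hsph : ContinuousOn h (sphere 0 1) := hc.mono sphere_subset_closedBall
  obtain ⟨P, hP⟩ := trig_approx hsph (half_pos hε)
  have hPc : Continuous (fun z : ℂ => (P.eval z).re) :=
    Complex.continuous_re.comp P.continuous
  have hmax := max_principle (isCompact_closedBall (0:ℂ) 1) (f := fun z => h z - (P.eval z).re - ε / 2)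
    ((hc.sub hPc.continuousOn).sub continuousOn_const) (by
      intro z hz hfz
      have hzb : z ∈ ball (0:ℂ) 1 := by
        rcases (mem_closedBall.1 hz).lt_or_eq with hlt | heq
        · exact hlt
        · exfalso
          have := hP z (mem_sphere.2 heq)
          rw [abs_lt] at this
          linarith [this.2]
      refine ⟨?_, ?_⟩
      · exact mem_interior_iff_mem_nhds.2 (Filter.mem_of_superset (isOpen_ball.mem_nhds hzb) ball_subset_closedBall)
      · obtain ⟨r0, hr0, hsub⟩ := hl z hzb
        refine ⟨min r0 (1 - ‖z‖), lt_min hr0 (by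
          have := mem_ball_zero_iff.1 hzb; linarith), fun r hr hrr => ?_⟩
        have h1 : r < r0 := lt_of_lt_of_le hrr (min_le_left _ _)
        have h2 : r < 1 - ‖z‖ := lt_of_lt_of_le hrr (min_le_right _ _)
        have hsub2 : sphere z r ⊆ closedBall 0 1 := by
          intro w hw
          rw [mem_closedBall, dist_zero_right]
          rw [mem_sphere, dist_eq_norm] at hw
          calc ‖w‖ = ‖(w - z) + z‖ := by ring_nf
            _ ≤ ‖w - z‖ + ‖z‖ := norm_add_le _ _
            _ ≤ 1 := by rw [hw]; linarith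
        have i1 : CircleIntegrable h z r := circleIntegrable_of_sphere hr.le (hc.mono hsub2)
        have i2 : CircleIntegrable (fun z : ℂ => (P.eval z).re) z r :=
          circleIntegrable_of_sphere hr.le hPc.continuousOn
        have i3 : CircleIntegrable (fun _ : ℂ => ε / 2) z r :=
          circleIntegrable_of_sphere hr.le continuousOn_const
        have i4 : CircleIntegrable (fun z => h z - (P.eval z).re) z r := i1.sub i2
        have e1 : circleAverage (fun z => h z - (P.eval z).re - ε / 2) z r =
            circleAverage h z r - (P.eval z).re - ε / 2 := by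
          rw [circleAverage_fun_sub i4 i3, circleAverage_fun_sub i1 i2, circleAverage_re_poly,
            circleAverage_const]
        rw [e1]
        have := hsub r hr h1
        linarith)
  have h0 := hmax 0 (by simp)
  have i1 : CircleIntegrable h 0 1 := circleIntegrable_of_sphere zero_le_one hsph
  have i2 : CircleIntegrable (fun z : ℂ => (P.eval z).re) 0 1 :=
    circleIntegrable_of_sphere zero_le_one hPc.continuousOn
  have i3 : CircleIntegrable (fun _ : ℂ => ε / 2) 0 1 :=
    circleIntegrable_of_sphere zero_le_one continuousOn_const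
  have h1 : (P.eval 0).re ≤ circleAverage h 0 1 + ε / 2 := by
    rw [← circleAverage_re_poly P 0 1]
    have : circleAverage (fun z => h z + ε / 2) 0 1 = circleAverage h 0 1 + ε / 2 := by
      rw [circleAverage_fun_add i1 i3, circleAverage_const]
    rw [← this]
    refine circleAverage_mono i2 (i1.add i3) (fun z hz => ?_)
    rw [abs_one] at hz
    have := hP z hz
    rw [abs_lt] at this
    linarith [this.1]
  linarith

end Pool.Agent.Work.MP_63d28d_an
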