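import Pool.Agent.Work.MP_63d28d_an.Domain

open Real Metric Set Filter Topology

namespace Pool.Agent.Work.MP_63d28d_an

/-- the parameters of the construction -/
structure Par where
  w : ℕ → ℂ
  q : ℕ → ℂ
  s : ℕ → ℝ
  η : ℕ → ℝ
  A : ℕ → ℝ
  γ : ℕ → ℝ
  b : ℕ → ℝ
  hw : ∀ k, ‖w k‖ = 1 / 2
  hq : ∀ k, ‖q k‖ ≤ 1 / 2
  hdisj : ∀ k l (x : ℂ), ‖x - q k‖ < s k → ‖x - q l‖ < s l → k = l
  hη : ∀ k, 0 < η k
  hη1 : ∀ k, η k ≤ 1
  hηs : Summable η
  hηt : ∑' k, 2 * η k ≤ 1 / 1000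
  hs : ∀ k, 0 < s k
  hA : ∀ k, A k * s k = 2
  hγ0 : ∀ k, 0 < γ k
  hγ1 : ∀ k, γ k ≤ 1
  h1 : ∀ k, (2 * A k) ^ γ k ≤ 2
  h2 : ∀ k, 1 / 2 ≤ (η k / 32) ^ γ k
  hb : ∀ k, 0 < b k
  hbη : ∀ k, b k < η k / 16
  hbs : ∀ k, b k < s k
  hb1 : ∀ k, (b k) ^ γ k ≤ 1 / 8
  hb2 : ∀ k, (A k * b k) ^ γ k ≤ 1 / 8

namespace Par

variable (p : Par)

lemma hApos (k : ℕ) : 0 < p.A k := by
  have h := p.hA k
  have hs := p.hs k
  by_contra hcon
  push Not at hcon
  nlinarith

/-- the function of the last variable -/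
noncomputable def θ (k : ℕ) (x : EuclideanSpace ℂ (Fin 3)) : ℝ :=
  ‖((p.A k : ℂ) • (EuclideanSpace.proj 2 : EuclideanSpace ℂ (Fin 3) →L[ℂ] ℂ)) x - (p.A k : ℂ) * p.q k‖ ^ p.γ k

/-- the function of the middle variable -/
noncomputable def ω (k : ℕ) (x : EuclideanSpace ℂ (Fin 3)) : ℝ :=
  ‖(EuclideanSpace.proj 1 : EuclideanSpace ℂ (Fin 3) →L[ℂ] ℂ) x - p.w k‖ ^ p.γ k

/-- the dip -/
noncomputable def N (k : ℕ) (x : EuclideanSpace ℂ (Fin 3)) : ℝ := max (p.ω k x) (p.θ k x)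

lemma θ_eq (k : ℕ) (x : EuclideanSpace ℂ (Fin 3)) : p.θ k x = (p.A k * ‖x 2 - p.q k‖) ^ p.γ k := by
  unfold θ
  congr 1
  have : ((p.A k : ℂ) • (EuclideanSpace.proj 2 : EuclideanSpace ℂ (Fin 3) →L[ℂ] ℂ)) x - (p.A k : ℂ) * p.q k =
      (p.A k : ℂ) * (x 2 - p.q k) := by
    simp [mul_sub]
  rw [this, norm_mul, Complex.norm_real, norm_eq_abs, abs_of_pos (p.hApos k)]

lemma ω_eq (k : ℕ) (x : EuclideanSpace ℂ (Fin 3)) : p.ω k x = ‖x 1 - p.w k‖ ^ p.γ k := rfl

lemma θ_cont (k : ℕ) : Continuous (p.θ k) := by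
  unfold θ
  exact Continuous.rpow_const (by fun_prop) (fun x => Or.inr (p.hγ0 k).le)

lemma ω_cont (k : ℕ) : Continuous (p.ω k) := by
  unfold ω
  exact Continuous.rpow_const (by fun_prop) (fun x => Or.inr (p.hγ0 k).le)

lemma N_cont (k : ℕ) : Continuous (p.N k) := (p.ω_cont k).max (p.θ_cont k)

lemma θ_LP (k : ℕ) (a : EuclideanSpace ℂ (Fin 3)) : LP (p.θ k) a :=
  LP.rpow_affine _ _ (p.hγ0 k) a

lemma ω_LP (k : ℕ) (a : EuclideanSpace ℂ (Fin 3)) : LP (p.ω k) a :=
  LP.rpow_affine _ _ (p.hγ0 k) a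

lemma N_LP (k : ℕ) (a : EuclideanSpace ℂ (Fin 3)) : LP (p.N k) a :=
  LP.max isOpen_univ (p.ω_cont k).continuousOn (p.θ_cont k).continuousOn (mem_univ a)
    (p.ω_LP k a) (p.θ_LP k a)

lemma θ_nonneg (k : ℕ) (x : EuclideanSpace ℂ (Fin 3)) : 0 ≤ p.θ k x := by
  unfold θ; positivity

lemma ω_nonneg (k : ℕ) (x : EuclideanSpace ℂ (Fin 3)) : 0 ≤ p.ω k x := by
  unfold ω; positivity

lemma N_nonneg (k : ℕ) (x : EuclideanSpace ℂ (Fin 3)) : 0 ≤ p.N k x :=
  (p.ω_nonneg k x).trans (le_max_left _ _)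

lemma θ_le (k : ℕ) {x : EuclideanSpace ℂ (Fin 3)} (hx : ‖x 2‖ < 1) : p.θ k x ≤ 2 := by
  rw [θ_eq]
  refine le_trans (Real.rpow_le_rpow (by have := p.hApos k; positivity) ?_ (p.hγ0 k).le) (p.h1 k)
  have h1 : ‖x 2 - p.q k‖ ≤ 2 := by
    have := norm_sub_le (x 2) (p.q k)
    have := p.hq k
    linarith
  have := p.hApos k
  nlinarith

lemma ω_le (k : ℕ) {x : EuclideanSpace ℂ (Fin 3)} (hx : ‖x 1‖ < 1) : p.ω k x ≤ 2 := by
  rw [ω_eq]
  have h1 : ‖x 1 - p.w k‖ ≤ 2 := by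
    have := norm_sub_le (x 1) (p.w k)
    have := p.hw k
    linarith
  calc ‖x 1 - p.w k‖ ^ p.γ k ≤ 2 ^ p.γ k := Real.rpow_le_rpow (norm_nonneg _) h1 (p.hγ0 k).le
    _ ≤ 2 ^ (1:ℝ) := Real.rpow_le_rpow_of_exponent_le (by norm_num) (p.hγ1 k)
    _ = 2 := by norm_num

lemma N_le (k : ℕ) {x : EuclideanSpace ℂ (Fin 3)} (hx : ‖x 1‖ < 1) (hx2 : ‖x 2‖ < 1) : p.N k x ≤ 2 :=
  max_le (p.ω_le k hx) (p.θ_le k hx2)

/-- the small polydisc-cylinder -/
def P (k : ℕ) : Set (EuclideanSpace ℂ (Fin 3)) := {x | ‖x 1 - p.w k‖ < p.η k / 16 ∧ ‖x 2 - p.q k‖ < p.s k}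

/-- the closed smaller one -/
def Q (k : ℕ) : Set (EuclideanSpace ℂ (Fin 3)) :=
  {x | ‖x 1 - p.w k‖ ≤ p.η k / 32 ∧ ‖x 2 - p.q k‖ ≤ p.s k / 2}

lemma isOpen_P (k : ℕ) : IsOpen (p.P k) := by
  have h : ∀ (i : Fin 3) (c : ℂ), Continuous (fun x : EuclideanSpace ℂ (Fin 3) => ‖x i - c‖) :=
    fun i c => by fun_prop
  exact (isOpen_lt (h 1 _) continuous_const).inter (isOpen_lt (h 2 _) continuous_const)

lemma isClosed_Q (k : ℕ) : IsClosed (p.Q k) := by
  have h : ∀ (i : Fin 3) (c : ℂ), Continuous (fun x : EuclideanSpace ℂ (Fin 3) => ‖x i - c‖) :=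
    fun i c => by fun_prop
  exact (isClosed_le (h 1 _) continuous_const).inter (isClosed_le (h 2 _) continuous_const)

lemma Q_sub_P (k : ℕ) : p.Q k ⊆ p.P k := by
  intro x hx
  have := p.hη k
  have := p.hs k
  exact ⟨lt_of_le_of_lt hx.1 (by linarith), lt_of_le_of_lt hx.2 (by linarith)⟩

/-- the constant-in-the-sum piece -/
noncomputable def κ (k : ℕ) (x : EuclideanSpace ℂ (Fin 3)) : ℝ := 1 / 4 - ‖x 1‖ ^ 2 + p.η k / 4

lemma κ_cont (k : ℕ) : Continuous (p.κ k) := by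
  unfold κ
  fun_prop

open Classical in
/-- the modified dips -/
noncomputable def m (k : ℕ) (x : EuclideanSpace ℂ (Fin 3)) : ℝ :=
  if x ∈ p.P k then max (p.η k * p.N k x) (p.κ k x) else p.η k * p.N k x

lemma sq_bound {k : ℕ} {x : EuclideanSpace ℂ (Fin 3)} {r : ℝ} (hx : ‖x 1 - p.w k‖ < r) (hr : r ≤ 1 / 2) :
    1 / 4 - ‖x 1‖ ^ 2 ≤ r := by
  have h1 := norm_sub_norm_le (p.w k) (x 1)
  rw [p.hw k, norm_sub_rev] at h1
  have h2 : 1 / 2 - r ≤ ‖x 1‖ := by linarith
  have h3 : (1 / 2 - r) ^ 2 ≤ ‖x 1‖ ^ 2 := pow_le_pow_left₀ (by linarith) h2 2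
  nlinarith [sq_nonneg r]

lemma κ_le {k : ℕ} {x : EuclideanSpace ℂ (Fin 3)} (hx : x ∈ p.P k) : p.κ k x ≤ p.η k / 2 := by
  have h := p.sq_bound hx.1 (by have := p.hη1 k; linarith)
  unfold κ
  have := p.hη k
  linarith

lemma N_ge {k : ℕ} {x : EuclideanSpace ℂ (Fin 3)} (hx : x ∉ p.Q k) : 1 / 2 ≤ p.N k x := by
  have hx' : ¬ (‖x 1 - p.w k‖ ≤ p.η k / 32 ∧ ‖x 2 - p.q k‖ ≤ p.s k / 2) := hx
  rw [not_and_or] at hx'
  have hη := p.hη k
  rcases hx' with h | h
  · push Not at h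
    refine le_trans ?_ (le_max_left _ _)
    rw [ω_eq]
    exact (p.h2 k).trans (Real.rpow_le_rpow (by positivity) h.le (p.hγ0 k).le)
  · push Not at h
    refine le_trans ?_ (le_max_right _ _)
    rw [θ_eq]
    have h3 : 1 ≤ p.A k * ‖x 2 - p.q k‖ := by
      have h4 := p.hA k
      have h5 := p.hApos k
      nlinarith
    have := Real.one_le_rpow h3 (p.hγ0 k).le
    linarith

lemma m_eq_of_not_Q {k : ℕ} {x : EuclideanSpace ℂ (Fin 3)} (hx : x ∉ p.Q k) :
    p.m k x = p.η k * p.N k x := by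
  unfold m
  split_ifs with hP
  · apply max_eq_left
    have h1 := p.κ_le hP
    have h2 := p.N_ge hx
    have := p.hη k
    nlinarith
  · rfl

lemma m_eq_of_P {k : ℕ} {x : EuclideanSpace ℂ (Fin 3)} (hx : x ∈ p.P k) :
    p.m k x = max (p.η k * p.N k x) (p.κ k x) := by
  unfold m
  rw [if_pos hx]

lemma m_ge (k : ℕ) (x : EuclideanSpace ℂ (Fin 3)) : p.η k * p.N k x ≤ p.m k x := by
  unfold m
  split_ifs
  · exact le_max_left _ _
  · exact le_rfl

lemma m_cont (k : ℕ) : Continuous (p.m k) := by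
  rw [continuous_iff_continuousAt]
  intro x
  have c1 : Continuous (fun x => p.η k * p.N k x) := continuous_const.mul (p.N_cont k)
  by_cases hx : x ∈ p.Q k
  · have hP : p.P k ∈ 𝓝 x := (p.isOpen_P k).mem_nhds (p.Q_sub_P k hx)
    have c2 : Continuous (fun x => max (p.η k * p.N k x) (p.κ k x)) := c1.max (p.κ_cont k)
    refine c2.continuousAt.congr ?_
    filter_upwards [hP] with y hy
    exact (p.m_eq_of_P hy).symm
  · have hQ : (p.Q k)ᶜ ∈ 𝓝 x := (p.isClosed_Q k).isOpen_compl.mem_nhds hx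
    refine c1.continuousAt.congr ?_
    filter_upwards [hQ] with y hy
    exact (p.m_eq_of_not_Q hy).symm

lemma m_nonneg (k : ℕ) (x : EuclideanSpace ℂ (Fin 3)) : 0 ≤ p.m k x :=
  le_trans (mul_nonneg (p.hη k).le (p.N_nonneg k x)) (p.m_ge k x)

lemma m_le (k : ℕ) {x : EuclideanSpace ℂ (Fin 3)} (hx : x ∈ Mset) : p.m k x ≤ 2 * p.η k := by
  have hN := p.N_le k hx.2.1 hx.2.2
  have hη := p.hη k
  have h1 : p.η k * p.N k x ≤ 2 * p.η k := by nlinarith
  unfold m
  split_ifs with hP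
  · have := p.κ_le hP
    exact max_le h1 (by linarith)
  · exact h1

lemma summable_2η : Summable (fun k => 2 * p.η k) := p.hηs.mul_left 2

/-- the function `G` -/
noncomputable def G (x : EuclideanSpace ℂ (Fin 3)) : ℝ := ‖x 1‖ ^ 2 + ∑' k, p.m k x

lemma m_summable {x : EuclideanSpace ℂ (Fin 3)} (hx : x ∈ Mset) : Summable (fun k => p.m k x) :=
  Summable.of_nonneg_of_le (fun k => p.m_nonneg k x) (fun k => p.m_le k hx) p.summable_2η

lemma G_cont : ContinuousOn p.G Mset := by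
  unfold G
  refine ContinuousOn.add (by fun_prop) ?_
  refine continuousOn_tsum (fun k => (p.m_cont k).continuousOn) p.summable_2η (fun k x hx => ?_)
  rw [norm_eq_abs, abs_of_nonneg (p.m_nonneg k x)]
  exact p.m_le k hx

lemma G_ge {x : EuclideanSpace ℂ (Fin 3)} : ‖x 1‖ ^ 2 ≤ p.G x := by
  unfold G
  have : 0 ≤ ∑' k, p.m k x := tsum_nonneg (fun k => p.m_nonneg k x)
  linarith

lemma G_le {x : EuclideanSpace ℂ (Fin 3)} (hx : x ∈ Mset) : p.G x ≤ ‖x 1‖ ^ 2 + 1 / 1000 := by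
  unfold G
  have : ∑' k, p.m k x ≤ ∑' k, 2 * p.η k :=
    Summable.tsum_le_tsum (fun k => p.m_le k hx) (p.m_summable hx) p.summable_2η
  have := p.hηt
  linarith

/-- general plurisubharmonicity of the sums -/
lemma sum_psh {V : Set (EuclideanSpace ℂ (Fin 3))} {f : ℕ → EuclideanSpace ℂ (Fin 3) → ℝ}
    (hf : ∀ k, Continuous (f k)) (hL : ∀ k a, LP (f k) a) (h0 : ∀ k x, 0 ≤ f k x)
    (h2 : ∀ k, ∀ x ∈ V, f k x ≤ 2) (S : ℕ → Prop) [DecidablePred S] :
    IsPSH V (fun x => ∑' k, if S k then 0 else p.η k * f k x) := by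
  apply IsPSH.tsum p.summable_2η
  · intro k
    apply IsPSH.of_local
    · by_cases hS : S k
      · simp only [hS, if_true]
        exact continuousOn_const
      · simp only [hS, if_false]
        exact (continuous_const.mul (hf k)).continuousOn
    · intro a _
      by_cases hS : S k
      · simp only [hS, if_true]
        exact LP.const 0 a
      · simp only [hS, if_false]
        exact (hL k a).const_mul (p.hη k).le
  · intro k x hx
    have hη := p.hη k
    split_ifs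
    · simp only [abs_zero]; positivity
    · rw [abs_of_nonneg (mul_nonneg hη.le (h0 k x))]
      have := h2 k x hx
      nlinarith

lemma sum_summable {f : ℕ → EuclideanSpace ℂ (Fin 3) → ℝ} {x : EuclideanSpace ℂ (Fin 3)}
    (h0 : ∀ k, 0 ≤ f k x) (h2 : ∀ k, f k x ≤ 2) : Summable (fun k => p.η k * f k x) := by
  refine Summable.of_nonneg_of_le (fun k => mul_nonneg (p.hη k).le (h0 k)) (fun k => ?_) p.summable_2η
  have := h2 k
  have := p.hη k
  nlinarith

lemma LP_sq (a : EuclideanSpace ℂ (Fin 3)) : LP (fun x : EuclideanSpace ℂ (Fin 3) => ‖x 1‖ ^ 2) a :=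
  LP.sq_affine (EuclideanSpace.proj 1 : EuclideanSpace ℂ (Fin 3) →L[ℂ] ℂ) a

lemma not_P_of_ne {k l : ℕ} (hkl : k ≠ l) {x : EuclideanSpace ℂ (Fin 3)} (hx : x ∈ p.P k) : x ∉ p.P l :=
  fun h => hkl (p.hdisj k l (x 2) hx.2 h.2)

lemma G_LP {a : EuclideanSpace ℂ (Fin 3)} (ha : a ∈ Mset) : LP p.G a := by
  have c0 : ContinuousOn (fun x : EuclideanSpace ℂ (Fin 3) => ‖x 1‖ ^ 2) Mset := by fun_prop
  by_cases hex : ∃ k, a ∈ p.P k ∧ p.η k * p.N k a < p.κ k a
  · obtain ⟨k, hk, hlt⟩ := hex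
    have hpsh := (p.sum_psh (V := Mset) p.N_cont p.N_LP p.N_nonneg
      (fun l x hx => p.N_le l hx.2.1 hx.2.2) (fun l => l = k))
    have hU : IsOpen (Mset ∩ p.P k) := isOpen_Mset.inter (p.isOpen_P k)
    -- the support function
    have hL : LP (fun x => (1 / 4 + p.η k / 4) + ∑' l, if l = k then 0 else p.η l * p.N l x) a :=
      LP.add isOpen_Mset continuousOn_const hpsh.1 ha (LP.const _ a) (hpsh.lp isOpen_Mset ha)
    have hsplit : ∀ x ∈ Mset, (1 / 4 + p.η k / 4) + (∑' l, if l = k then 0 else p.η l * p.N l x) =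
        ‖x 1‖ ^ 2 + ∑' l, if l = k then p.κ k x else p.η l * p.N l x := by
      intro x hx
      have hs : Summable (fun l => if l = k then p.κ k x else p.η l * p.N l x) := by
        have h1 := p.sum_summable (f := p.N) (x := x) (fun l => p.N_nonneg l x)
          (fun l => p.N_le l hx.2.1 hx.2.2)
        have h2 : (fun l => if l = k then p.κ k x else p.η l * p.N l x) =
            Function.update (fun l => p.η l * p.N l x) k (p.κ k x) := by
          funext l
          by_cases hl : l = k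
          · subst hl; simp
          · simp [hl]
        rw [h2]
        exact h1.update k (p.κ k x)
      rw [hs.tsum_eq_add_tsum_ite k]
      simp only [if_true]
      have h3 : (fun l => if l = k then (0:ℝ) else if l = k then p.κ k x else p.η l * p.N l x) =
          fun l => if l = k then 0 else p.η l * p.N l x := by
        funext l
        by_cases hl : l = k
        · simp [hl]
        · simp [hl]
      rw [h3]
      unfold κ
      ring
    have hs' : ∀ x ∈ Mset, Summable (fun l => if l = k then p.κ k x else p.η l * p.N l x) := by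
      intro x hx
      have h1 := p.sum_summable (f := p.N) (x := x) (fun l => p.N_nonneg l x)
        (fun l => p.N_le l hx.2.1 hx.2.2)
      have h2 : (fun l => if l = k then p.κ k x else p.η l * p.N l x) =
          Function.update (fun l => p.η l * p.N l x) k (p.κ k x) := by
        funext l
        by_cases hl : l = k
        · subst hl; simp
        · simp [hl]
      rw [h2]
      exact h1.update k (p.κ k x)
    refine LP.of_support (H := fun x => (1 / 4 + p.η k / 4) + ∑' l, if l = k then 0 else p.η l * p.N l x)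
      hU (p.G_cont.mono inter_subset_left)
      ((continuousOn_const.add hpsh.1).mono inter_subset_left) ⟨ha, hk⟩ ?_ ?_ hL
    · intro x hx
      rw [hsplit x hx.1]
      unfold G
      refine add_le_add le_rfl ?_
      refine Summable.tsum_le_tsum (fun l => ?_) (hs' x hx.1) (p.m_summable hx.1)
      by_cases hl : l = k
      · subst hl
        simp only [if_true]
        rw [p.m_eq_of_P hx.2]
        exact le_max_right _ _
      · simp only [hl, if_false]
        exact p.m_ge l x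
    · rw [hsplit a ha]
      unfold G
      apply le_of_eq
      congr 2
      funext l
      by_cases hl : l = k
      · subst hl
        simp only [if_true]
        rw [p.m_eq_of_P hk]
        exact max_eq_right hlt.le
      · simp only [hl, if_false]
        unfold m
        rw [if_neg (p.not_P_of_ne (Ne.symm hl) hk)]
  · push Not at hex
    have hpsh := (p.sum_psh (V := Mset) p.N_cont p.N_LP p.N_nonneg
      (fun l x hx => p.N_le l hx.2.1 hx.2.2) (fun _ => False))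
    simp only [if_false] at hpsh
    have hL : LP (fun x => ‖x 1‖ ^ 2 + ∑' l, p.η l * p.N l x) a :=
      LP.add isOpen_Mset c0 hpsh.1 ha (LP_sq a) (hpsh.lp isOpen_Mset ha)
    refine LP.of_support (H := fun x => ‖x 1‖ ^ 2 + ∑' l, p.η l * p.N l x)
      isOpen_Mset p.G_cont (c0.add hpsh.1) ha ?_ ?_ hL
    · intro x hx
      unfold G
      refine add_le_add le_rfl ?_
      exact Summable.tsum_le_tsum (fun l => p.m_ge l x)
        (p.sum_summable (fun l => p.N_nonneg l x) (fun l => p.N_le l hx.2.1 hx.2.2)) (p.m_summable hx)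
    · unfold G
      apply le_of_eq
      congr 2
      funext l
      unfold m
      split_ifs with hP
      · exact max_eq_left (hex l hP)
      · rfl

end Par

end Pool.Agent.Work.MP_63d28d_an
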