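import Mathlib

open Real

namespace Pool.Agent.Work.MP_63d28d_an

/-- `IsPSH U φ`: the real-valued function `φ` is continuous and plurisubharmonic on the set
`U` of a complex normed space: it is continuous on `U` and for every closed complex disc
`{a + t b : t ∈ ℂ, |t| ≤ 1}` contained in `U` its value at the centre `a` is at most its
average over the boundary circle. -/
def IsPSH {E : Type*} [NormedAddCommGroup E] [NormedSpace ℂ E] (U : Set E) (φ : E → ℝ) : Prop :=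
  ContinuousOn φ U ∧
    ∀ a b : E, (∀ t : ℂ, ‖t‖ ≤ 1 → a + t • b ∈ U) →
      φ a ≤ circleAverage (fun t : ℂ => φ (a + t • b)) 0 1

/-- `IsStrictlyPSHAt Ω φ z`: there are an open neighbourhood `U ⊆ Ω` of `z` and `ε > 0` such
that `φ - ε |·|²` is plurisubharmonic on `U`. -/
def IsStrictlyPSHAt {n : ℕ} (Ω : Set (EuclideanSpace ℂ (Fin n)))
    (φ : EuclideanSpace ℂ (Fin n) → ℝ) (z : EuclideanSpace ℂ (Fin n)) : Prop :=
  ∃ U : Set (EuclideanSpace ℂ (Fin n)), IsOpen U ∧ U ⊆ Ω ∧ z ∈ U ∧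
    ∃ ε : ℝ, 0 < ε ∧ IsPSH U (fun x => φ x - ε * ‖x‖ ^ 2)

/-- The `C^s`-core of `Ω`: the points `z` of `Ω` at which no `C^s`-smooth plurisubharmonic
function on `Ω` that is bounded from above is strictly plurisubharmonic. -/
def core {n : ℕ} (s : ℕ∞) (Ω : Set (EuclideanSpace ℂ (Fin n))) :
    Set (EuclideanSpace ℂ (Fin n)) :=
  {z | z ∈ Ω ∧ ¬ ∃ φ : EuclideanSpace ℂ (Fin n) → ℝ,
    ContDiffOn ℝ s φ Ω ∧ IsPSH Ω φ ∧ BddAbove (φ '' Ω) ∧ IsStrictlyPSHAt Ω φ z}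

end Pool.Agent.Work.MP_63d28d_an
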