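import Pool.Agent.Work.MP_63d28d_an.Smooth

open Real Metric Set Filter Topology

namespace Pool.Agent.Work.MP_63d28d_an

/-- the point with coordinates `z, w, q` -/
def pt (z w q : ℂ) : EuclideanSpace ℂ (Fin 3) := !₂[z, w, q]

@[simp] lemma pt_zero (z w q : ℂ) : pt z w q 0 = z := rfl
@[simp] lemma pt_one (z w q : ℂ) : pt z w q 1 = w := rfl
@[simp] lemma pt_two (z w q : ℂ) : pt z w q 2 = q := rfl

lemma pt_add (z w q z' w' q' : ℂ) : pt z w q + pt z' w' q' = pt (z + z') (w + w') (q + q') := by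
  ext i
  fin_cases i <;> rfl

lemma pt_smul (t z w q : ℂ) : t • pt z w q = pt (t * z) (t * w) (t * q) := by
  ext i
  fin_cases i <;> rfl

lemma pt_000 : pt 0 0 0 = 0 := by
  ext i
  fin_cases i <;> rfl

/-- the unit polydisc -/
def Mset : Set (EuclideanSpace ℂ (Fin 3)) := {x | ‖x 0‖ < 1 ∧ ‖x 1‖ < 1 ∧ ‖x 2‖ < 1}

/-- the attached sets -/
def LT (w q : ℕ → ℂ) (b : ℕ → ℝ) (k : ℕ) : Set (EuclideanSpace ℂ (Fin 3)) :=
  {x | ‖x 2 - q k‖ < b k ∧ (‖x 1 - w k‖ < b k ∨ ‖x 0 - 3‖ < 1)}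

/-- the domain -/
def Om (w q : ℕ → ℂ) (b : ℕ → ℝ) : Set (EuclideanSpace ℂ (Fin 3)) :=
  Mset ∪ ⋃ k, LT w q b k

lemma isOpen_Mset : IsOpen Mset := by
  have h : ∀ i : Fin 3, Continuous (fun x : EuclideanSpace ℂ (Fin 3) => ‖x i‖) := fun i => by fun_prop
  exact (isOpen_lt (h 0) continuous_const).inter
    ((isOpen_lt (h 1) continuous_const).inter (isOpen_lt (h 2) continuous_const))

lemma isOpen_LT (w q : ℕ → ℂ) (b : ℕ → ℝ) (k : ℕ) : IsOpen (LT w q b k) := by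
  have h : ∀ (i : Fin 3) (c : ℂ), Continuous (fun x : EuclideanSpace ℂ (Fin 3) => ‖x i - c‖) :=
    fun i c => by fun_prop
  exact (isOpen_lt (h 2 _) continuous_const).inter
    ((isOpen_lt (h 1 _) continuous_const).union (isOpen_lt (h 0 _) continuous_const))

lemma isOpen_Om (w q : ℕ → ℂ) (b : ℕ → ℝ) : IsOpen (Om w q b) :=
  isOpen_Mset.union (isOpen_iUnion (isOpen_LT w q b))

lemma convex_coord (i : Fin 3) (c : ℂ) (r : ℝ) :
    Convex ℝ {x : EuclideanSpace ℂ (Fin 3) | ‖x i - c‖ < r} := by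
  have := (convex_ball c r).is_linear_preimage (f := fun x : EuclideanSpace ℂ (Fin 3) => x i)
    (IsLinearMap.mk (fun x y => rfl) (fun c x => rfl))
  have e : (fun x : EuclideanSpace ℂ (Fin 3) => x i) ⁻¹' ball c r =
      {x : EuclideanSpace ℂ (Fin 3) | ‖x i - c‖ < r} := by
    ext x
    simp [dist_eq_norm]
  rw [← e]
  exact this

lemma isConnected_Om {w q : ℕ → ℂ} {b : ℕ → ℝ} (hw : ∀ k, ‖w k‖ < 1) (hq : ∀ k, ‖q k‖ < 1)
    (hb : ∀ k, 0 < b k) : IsConnected (Om w q b) := by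
  have h0 : (0 : EuclideanSpace ℂ (Fin 3)) ∈ Mset := by
    simp [Mset]
  refine ⟨⟨0, Or.inl h0⟩, ?_⟩
  have hM : IsPreconnected Mset := by
    have e : Mset = {x : EuclideanSpace ℂ (Fin 3) | ‖x 0 - 0‖ < 1} ∩
        ({x : EuclideanSpace ℂ (Fin 3) | ‖x 1 - 0‖ < 1} ∩ {x : EuclideanSpace ℂ (Fin 3) | ‖x 2 - 0‖ < 1}) := by
      ext x
      simp [Mset]
    rw [e]
    exact ((convex_coord 0 0 1).inter ((convex_coord 1 0 1).inter (convex_coord 2 0 1))).isPreconnected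
  have hU : Om w q b = ⋃ k, (Mset ∪ LT w q b k) := by
    rw [← union_iUnion]
    rfl
  rw [hU]
  apply isPreconnected_iUnion
  · exact ⟨0, mem_iInter.2 (fun k => Or.inl h0)⟩
  · intro k
    have e : Mset ∪ LT w q b k =
        (Mset ∪ ({x : EuclideanSpace ℂ (Fin 3) | ‖x 2 - q k‖ < b k} ∩ {x : EuclideanSpace ℂ (Fin 3) | ‖x 1 - w k‖ < b k}))
        ∪ ({x : EuclideanSpace ℂ (Fin 3) | ‖x 2 - q k‖ < b k} ∩ {x : EuclideanSpace ℂ (Fin 3) | ‖x 0 - 3‖ < 1}) := by
      ext x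
      simp only [LT, mem_union, mem_ofPred_eq, mem_inter_iff]
      tauto
    rw [e]
    refine IsPreconnected.union (pt 3 (w k) (q k)) ?_ ?_ ?_ ?_
    · right
      simp [hb k]
    · simp [hb k]
    · refine IsPreconnected.union (pt 0 (w k) (q k)) ?_ ?_ hM ?_
      · simp [Mset, hw k, hq k]
      · simp [hb k]
      · exact ((convex_coord 2 _ _).inter (convex_coord 1 _ _)).isPreconnected
    · exact ((convex_coord 2 _ _).inter (convex_coord 0 _ _)).isPreconnected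

/-- the `C¹` side -/
theorem mem_core_smooth {w q : ℕ → ℂ} {b : ℕ → ℝ} (hq : ∀ k, ‖q k‖ < 1)
    (hw : ∀ k, ‖w k‖ = 1 / 2) (hb : ∀ k, 0 < b k)
    (hacc : ∀ x : ℂ, ‖x‖ = 1 / 2 → ∀ ε > 0, ∃ k, ‖w k - x‖ < ε ∧ ‖q k‖ < ε)
    {s : ℕ∞} (hs : 1 ≤ s) : (0 : EuclideanSpace ℂ (Fin 3)) ∈ core s (Om w q b) := by
  have h0M : (0 : EuclideanSpace ℂ (Fin 3)) ∈ Mset := by simp [Mset]
  refine ⟨Or.inl h0M, ?_⟩
  rintro ⟨φ, hsm, hpsh, ⟨B, hB⟩, U, hUo, hUΩ, h0U, ε, hε, hpshU⟩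
  have hΩo := isOpen_Om w q b
  have hB' : ∀ x ∈ Om w q b, φ x ≤ B := fun x hx => hB ⟨x, hx, rfl⟩
  have hC1 : ContDiffOn ℝ 1 φ (Om w q b) := hsm.of_le (by exact_mod_cast hs)
  have hfd : ContinuousOn (fun x => fderiv ℝ φ x) (Om w q b) :=
    hC1.continuousOn_fderiv_of_isOpen hΩo le_rfl
  have hdiff : ∀ x ∈ Om w q b, DifferentiableAt ℝ φ x := fun x hx =>
    (hC1.differentiableOn one_ne_zero).differentiableAt (hΩo.mem_nhds hx)
  -- constancy
  have hconst : ∀ k, ∀ w' : ℂ, ‖w' - w k‖ < b k → φ (pt 0 w' (q k)) = φ (pt 0 (w k) (q k)) := by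
    intro k w' hw'
    have l1 : ∀ v : ℂ, ‖v - w k‖ < b k → φ (pt 3 v (q k)) = φ (pt 0 v (q k)) := by
      intro v hv
      have := line_const hΩo hpsh hB' (a := pt 0 v (q k)) (b := pt 1 0 0) (fun t => by
        right
        rw [mem_iUnion]
        refine ⟨k, ?_⟩
        rw [pt_smul, pt_add]
        refine ⟨by simp [hb k], Or.inl ?_⟩
        simpa using hv) 3
      rw [pt_smul, pt_add] at this
      simpa using this
    have l2 : ∀ v : ℂ, φ (pt 3 v (q k)) = φ (pt 3 0 (q k)) := by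
      intro v
      have := line_const hΩo hpsh hB' (a := pt 3 0 (q k)) (b := pt 0 1 0) (fun t => by
        right
        rw [mem_iUnion]
        refine ⟨k, ?_⟩
        rw [pt_smul, pt_add]
        refine ⟨by simp [hb k], Or.inr ?_⟩
        simp) v
      rw [pt_smul, pt_add] at this
      simpa using this
    rw [← l1 w' hw', ← l1 (w k) (by simp [hb k]), l2 w', l2 (w k)]
  -- derivative vanishes at the points
  have hMmem : ∀ v p : ℂ, ‖v‖ < 1 → ‖p‖ < 1 → pt 0 v p ∈ Om w q b := fun v p hv hp =>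
    Or.inl (by simp [Mset, hv, hp])
  have hder0 : ∀ k, ∀ v : ℂ, fderiv ℝ φ (pt 0 (w k) (q k)) (pt 0 v 0) = 0 := by
    intro k v
    have hin : pt 0 (w k) (q k) ∈ Om w q b := hMmem _ _ (by rw [hw k]; norm_num) (hq k)
    have h1 : HasDerivAt (fun t : ℝ => φ (pt 0 (w k) (q k) + t • pt 0 v 0))
        (fderiv ℝ φ (pt 0 (w k) (q k)) (pt 0 v 0)) 0 := by
      have hl : HasDerivAt (fun t : ℝ => pt 0 (w k) (q k) + t • pt 0 v 0) (pt 0 v 0) 0 := by
        have := ((hasDerivAt_id (0:ℝ)).smul_const (pt 0 v 0)).const_add (pt 0 (w k) (q k))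
        simpa using this
      have hf : HasFDerivAt φ (fderiv ℝ φ (pt 0 (w k) (q k))) (pt 0 (w k) (q k) + (0:ℝ) • pt 0 v 0) := by
        rw [zero_smul, add_zero]
        exact (hdiff _ hin).hasFDerivAt
      exact hf.comp_hasDerivAt (0:ℝ) hl
    have h2 : (fun t : ℝ => φ (pt 0 (w k) (q k) + t • pt 0 v 0)) =ᶠ[𝓝 0]
        fun _ => φ (pt 0 (w k) (q k)) := by
      have hcont : Continuous (fun t : ℝ => ‖(t : ℂ) * v‖) := by fun_prop
      have h3 : ∀ᶠ t : ℝ in 𝓝 0, ‖(t : ℂ) * v‖ < b k := by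
        apply (hcont.tendsto 0).eventually_lt_const
        simp [hb k]
      filter_upwards [h3] with t ht
      have e : pt 0 (w k) (q k) + t • pt 0 v 0 = pt 0 (w k + (t:ℂ) * v) (q k) := by
        have : t • pt 0 v 0 = (t:ℂ) • pt 0 v 0 := by
          ext i
          simp
        rw [this, pt_smul, pt_add]
        simp
      rw [e]
      apply hconst
      simpa using ht
    have h3 : HasDerivAt (fun t : ℝ => φ (pt 0 (w k) (q k) + t • pt 0 v 0)) 0 0 :=
      (hasDerivAt_const (0:ℝ) (φ (pt 0 (w k) (q k)))).congr_of_eventuallyEq h2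
    exact h1.unique h3
  have hder : ∀ x v : ℂ, ‖x‖ = 1 / 2 → fderiv ℝ φ (pt 0 x 0) (pt 0 v 0) = 0 := by
    intro x v hx
    by_contra hne
    have hin : pt 0 x 0 ∈ Om w q b := hMmem _ _ (by rw [hx]; norm_num) (by simp)
    have hcat : ContinuousAt (fun p => fderiv ℝ φ p (pt 0 v 0)) (pt 0 x 0) := by
      have := hfd.continuousAt (hΩo.mem_nhds hin)
      exact this.clm_apply continuousAt_const
    have hcpt : Continuous (fun y : ℂ × ℂ => pt 0 y.1 y.2) := by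
      unfold pt
      fun_prop
    have hcomp : ContinuousAt (fun y : ℂ × ℂ => fderiv ℝ φ (pt 0 y.1 y.2) (pt 0 v 0)) (x, 0) :=
      ContinuousAt.comp (f := fun y : ℂ × ℂ => pt 0 y.1 y.2) (x := (x, 0)) hcat hcpt.continuousAt
    have hev : ∀ᶠ y : ℂ × ℂ in 𝓝 (x, 0), fderiv ℝ φ (pt 0 y.1 y.2) (pt 0 v 0) ≠ 0 :=
      hcomp.eventually_ne hne
    obtain ⟨η, hη, hball⟩ := Metric.eventually_nhds_iff.1 hev
    obtain ⟨k, hk1, hk2⟩ := hacc x hx η hη
    refine hball (y := (w k, q k)) ?_ (hder0 k v)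
    rw [Prod.dist_eq]
    simp only [dist_eq_norm, sub_zero]
    exact max_lt hk1 hk2
  -- restriction to the w-plane
  set u : ℂ → ℝ := fun t => φ (0 + t • pt 0 1 0) with hu
  have hline : ∀ t : ℂ, (0 : EuclideanSpace ℂ (Fin 3)) + t • pt 0 1 0 = pt 0 t 0 := by
    intro t
    rw [← pt_000, pt_smul, pt_add]
    simp
  have hlin : ∀ t : ℂ, ‖t‖ < 1 → (0 : EuclideanSpace ℂ (Fin 3)) + t • pt 0 1 0 ∈ Om w q b := by
    intro t ht
    rw [hline]
    exact hMmem _ _ ht (by simp)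
  have huc : ContinuousOn u (ball 0 1) := by
    apply hpsh.1.comp (by fun_prop)
    intro t ht
    exact hlin t (by simpa using ht)
  have huL : ∀ z ∈ ball (0:ℂ) 1, LSM u z := fun z hz =>
    LSM_line (hpsh.lp hΩo (hlin z (by simpa using hz)))
  -- a small radius
  obtain ⟨r1, hr1, h1⟩ := exists_radius hUo h0U (pt 0 1 0)
  set δ := min r1 (1 / 2) / 2 with hδdef
  have hmin : 0 < min r1 (1 / 2) := by positivity
  have hδ : 0 < δ := by positivity
  have hδ1 : δ < r1 := by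
    have := min_le_left r1 (1 / 2)
    linarith
  have hδ2 : δ < 1 / 2 := by
    have := min_le_right r1 (1 / 2)
    linarith
  obtain ⟨x0, hx0, hnot⟩ := hopf huc huL hδ hδ2 (by
    intro c hc z hz
    by_contra hcon
    push Not at hcon
    have hzU : (0 : EuclideanSpace ℂ (Fin 3)) + z • pt 0 1 0 ∈ U := h1 z (by rw [hz]; exact hδ1)
    obtain ⟨r0, hr0, h0⟩ := hpshU.lp hUo hzU (pt 0 1 0)
    set r := min r0 (1 / 2 - δ) / 2 with hrdef
    have hmin2 : 0 < min r0 (1 / 2 - δ) := lt_min hr0 (by linarith)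
    have hr : 0 < r := by positivity
    have hrr0 : r < r0 := by
      have := min_le_left r0 (1 / 2 - δ)
      linarith
    have hrδ : r + δ < 1 / 2 := by
      have := min_le_right r0 (1 / 2 - δ)
      linarith
    have h2 := h0 r hr hrr0
    have hmem : ∀ t : ℂ, ‖t‖ = r → (0 : EuclideanSpace ℂ (Fin 3)) + z • pt 0 1 0 + t • pt 0 1 0 ∈ Om w q b := by
      intro t ht
      rw [add_assoc, ← add_smul]
      apply hlin
      have := norm_add_le z t
      linarith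
    have i1 : CircleIntegrable (fun t : ℂ => φ (0 + z • pt 0 1 0 + t • pt 0 1 0)) 0 r :=
      circleIntegrable_line hpsh.1 hr.le hmem
    have i2 : CircleIntegrable (fun t : ℂ => ε * ‖(0 : EuclideanSpace ℂ (Fin 3)) + z • pt 0 1 0 + t • pt 0 1 0‖ ^ 2) 0 r :=
      circleIntegrable_of_sphere hr.le (by fun_prop)
    have e1 : circleAverage (fun t : ℂ => ε * ‖(0 : EuclideanSpace ℂ (Fin 3)) + z • pt 0 1 0 + t • pt 0 1 0‖ ^ 2) 0 r
        = ε * (‖(0 : EuclideanSpace ℂ (Fin 3)) + z • pt 0 1 0‖ ^ 2 + r ^ 2 * ‖pt 0 1 0‖ ^ 2) := by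
      have := circleAverage_fun_smul (c := (0:ℂ)) (R := r) (a := ε)
        (f := fun t : ℂ => ‖(0 : EuclideanSpace ℂ (Fin 3)) + z • pt 0 1 0 + t • pt 0 1 0‖ ^ 2)
      simp only [smul_eq_mul] at this
      rw [this, average_norm_sq]
    rw [circleAverage_fun_sub i1 i2, e1] at h2
    have h3 : circleAverage (fun t : ℂ => φ (0 + z • pt 0 1 0 + t • pt 0 1 0)) 0 r ≤ c := by
      apply circleAverage_mono_on_of_le_circle i1
      intro t ht
      rw [abs_of_pos hr] at ht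
      have ht' : ‖t‖ = r := by simpa using ht
      rw [add_assoc, ← add_smul]
      apply hc
      have := norm_add_le z t
      linarith
    have h4 : 0 < ‖pt 0 1 0‖ := by
      rw [norm_pos_iff]
      intro h
      have := congrArg (fun x : EuclideanSpace ℂ (Fin 3) => x 1) h
      simp at this
    have h5 : 0 < ε * (r ^ 2 * ‖pt 0 1 0‖ ^ 2) := by positivity
    have h6 : u z = φ (0 + z • pt 0 1 0) := rfl
    nlinarith)
  apply hnot
  have hin : pt 0 x0 0 ∈ Om w q b := hMmem _ _ (by rw [hx0]; norm_num) (by simp)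
  have hl : HasDerivAt (fun t : ℝ => (0 : EuclideanSpace ℂ (Fin 3)) + ((t:ℂ) * x0) • pt 0 1 0) (pt 0 x0 0) 1 := by
    have h := (((hasDerivAt_id (1:ℝ)).smul_const (pt 0 x0 0)).const_add (0 : EuclideanSpace ℂ (Fin 3)))
    have e : (fun t : ℝ => (0 : EuclideanSpace ℂ (Fin 3)) + ((t:ℂ) * x0) • pt 0 1 0) =
        fun t : ℝ => (0 : EuclideanSpace ℂ (Fin 3)) + (id t) • pt 0 x0 0 := by
      funext t
      rw [hline, zero_add]
      ext i
      fin_cases i <;> simp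
    rw [e]
    simpa using h
  have hf : HasFDerivAt φ (fderiv ℝ φ (pt 0 x0 0))
      ((0 : EuclideanSpace ℂ (Fin 3)) + (((1:ℝ):ℂ) * x0) • pt 0 1 0) := by
    rw [hline]
    simp only [Complex.ofReal_one, one_mul]
    exact (hdiff _ hin).hasFDerivAt
  have := hf.comp_hasDerivAt (1:ℝ) hl
  rw [hder x0 x0 hx0] at this
  exact this

end Pool.Agent.Work.MP_63d28d_an
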