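import Pool.Agent.Work.MP_63d28d_an.Cont

open Real Metric Set Filter Topology

namespace Pool.Agent.Work.MP_63d28d_an

namespace Par

variable (p : Par)

/-- the values on the attached sets -/
noncomputable def τ (k : ℕ) (x : EuclideanSpace ℂ (Fin 3)) : ℝ :=
  (1 / 4 + p.η k / 4) + ∑' l, if l = k then 0 else p.η l * p.θ l x

lemma split_sum {f : ℕ → EuclideanSpace ℂ (Fin 3) → ℝ} {x : EuclideanSpace ℂ (Fin 3)}
    (h0 : ∀ k, 0 ≤ f k x) (h2 : ∀ k, f k x ≤ 2) (k : ℕ) :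
    (1 / 4 + p.η k / 4) + (∑' l, if l = k then 0 else p.η l * f l x) =
      ‖x 1‖ ^ 2 + ∑' l, if l = k then p.κ k x else p.η l * f l x := by
  have hs : Summable (fun l => if l = k then p.κ k x else p.η l * f l x) := by
    have h1 := p.sum_summable (f := f) (x := x) h0 h2
    have h2 : (fun l => if l = k then p.κ k x else p.η l * f l x) =
        Function.update (fun l => p.η l * f l x) k (p.κ k x) := by
      funext l
      by_cases hl : l = k
      · subst hl; simp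
      · simp [hl]
    rw [h2]
    exact h1.update k (p.κ k x)
  rw [hs.tsum_eq_add_tsum_ite k]
  simp only [if_true]
  have h3 : (fun l => if l = k then (0:ℝ) else if l = k then p.κ k x else p.η l * f l x) =
      fun l => if l = k then 0 else p.η l * f l x := by
    funext l
    by_cases hl : l = k
    · simp [hl]
    · simp [hl]
  rw [h3]
  unfold κ
  ring

lemma G_eq_τ {k : ℕ} {x : EuclideanSpace ℂ (Fin 3)} (hx : x ∈ Mset) (h1 : ‖x 1 - p.w k‖ < p.b k)
    (h2 : ‖x 2 - p.q k‖ < p.b k) : p.G x = p.τ k x := by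
  have hP : x ∈ p.P k := ⟨h1.trans (p.hbη k), h2.trans (p.hbs k)⟩
  unfold τ
  rw [p.split_sum (fun l => p.θ_nonneg l x) (fun l => p.θ_le l hx.2.2) k]
  unfold G
  congr 2
  funext l
  have hη := p.hη k
  by_cases hl : l = k
  · subst hl
    simp only [if_true]
    rw [p.m_eq_of_P hP]
    apply max_eq_right
    have hω : p.ω l x ≤ 1 / 8 := by
      rw [ω_eq]
      exact (Real.rpow_le_rpow (norm_nonneg _) h1.le (p.hγ0 l).le).trans (p.hb1 l)
    have hθ : p.θ l x ≤ 1 / 8 := by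
      rw [θ_eq]
      refine (Real.rpow_le_rpow (by have := p.hApos l; positivity) ?_ (p.hγ0 l).le).trans (p.hb2 l)
      have := p.hApos l
      gcongr
    have hN : p.N l x ≤ 1 / 8 := max_le hω hθ
    have h3 : ‖x 1‖ ≤ 1 / 2 + p.b l := by
      have := norm_sub_norm_le (x 1) (p.w l)
      rw [p.hw l] at this
      linarith
    have h4 := p.hbη l
    have h5 := hx.2.1
    have h6 : ‖x 1‖ ^ 2 - 1 / 4 ≤ p.η l / 8 := by
      by_cases h7 : ‖x 1‖ ≤ 1 / 2
      · nlinarith [norm_nonneg (x 1)]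
      · push Not at h7
        have : ‖x 1‖ ^ 2 - 1 / 4 = (‖x 1‖ - 1 / 2) * (‖x 1‖ + 1 / 2) := by ring
        rw [this]
        have h8 : (‖x 1‖ - 1 / 2) * (‖x 1‖ + 1 / 2) ≤ p.b l * (3 / 2) := by
          apply mul_le_mul (by linarith) (by linarith) (by positivity) (p.hb l).le
        linarith
    unfold κ
    nlinarith
  · simp only [hl, if_false]
    unfold m
    rw [if_neg (p.not_P_of_ne (Ne.symm hl) hP)]
    congr 1
    apply max_eq_right
    rw [ω_eq, θ_eq]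
    refine Real.rpow_le_rpow (norm_nonneg _) ?_ (p.hγ0 l).le
    have h3 : p.s l ≤ ‖x 2 - p.q l‖ := by
      by_contra hcon
      push Not at hcon
      exact hl (p.hdisj l k (x 2) hcon hP.2)
    have h4 : ‖x 1 - p.w l‖ ≤ 2 := by
      have := norm_sub_le (x 1) (p.w l)
      have := p.hw l
      have := hx.2.1
      linarith
    have h5 := p.hA l
    have h6 := p.hApos l
    nlinarith

/-- `τ k` is plurisubharmonic where `|x 2| < 1` -/
lemma τ_psh (k : ℕ) : IsPSH {x : EuclideanSpace ℂ (Fin 3) | ‖x 2‖ < 1} (p.τ k) := by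
  have hpsh := (p.sum_psh (V := {x : EuclideanSpace ℂ (Fin 3) | ‖x 2‖ < 1}) p.θ_cont p.θ_LP p.θ_nonneg
      (fun l x hx => p.θ_le l hx) (fun l => l = k))
  have ho : IsOpen {x : EuclideanSpace ℂ (Fin 3) | ‖x 2‖ < 1} :=
    isOpen_lt (by fun_prop) continuous_const
  apply IsPSH.of_local
  · exact continuousOn_const.add hpsh.1
  · intro a ha
    exact LP.add ho continuousOn_const hpsh.1 ha (LP.const _ a) (hpsh.lp ho ha)

lemma τ_le {k : ℕ} {x : EuclideanSpace ℂ (Fin 3)} (hx : ‖x 2‖ < 1) : p.τ k x ≤ 2 := by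
  unfold τ
  have h1 : (∑' l, if l = k then 0 else p.η l * p.θ l x) ≤ ∑' l, 2 * p.η l := by
    refine Summable.tsum_le_tsum (fun l => ?_) ?_ p.summable_2η
    · have := p.hη l
      have := p.θ_le l hx
      split_ifs
      · positivity
      · nlinarith
    · refine Summable.of_nonneg_of_le (fun l => ?_) (fun l => ?_) p.summable_2η
      · have := p.hη l
        have := p.θ_nonneg l x
        split_ifs
        · exact le_rfl
        · positivity
      · have := p.hη l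
        have := p.θ_le l hx
        split_ifs
        · positivity
        · nlinarith
  have := p.hηt
  have := p.hη1 k
  linarith

/-- the strictly plurisubharmonic function near the origin -/
noncomputable def E (x : EuclideanSpace ℂ (Fin 3)) : ℝ := 1 / 100 + 1 / 1000 * ‖x‖ ^ 2

lemma E_cont : Continuous E := by
  unfold E
  fun_prop

lemma E_LP (a : EuclideanSpace ℂ (Fin 3)) : LP E a := by
  intro b
  refine ⟨1, one_pos, fun r hr _ => ?_⟩
  unfold E
  have i2 : CircleIntegrable (fun t : ℂ => 1 / 1000 * ‖a + t • b‖ ^ 2) 0 r :=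
    circleIntegrable_of_sphere hr.le (by fun_prop)
  have e1 : circleAverage (fun t : ℂ => 1 / 1000 * ‖a + t • b‖ ^ 2) 0 r
      = 1 / 1000 * (‖a‖ ^ 2 + r ^ 2 * ‖b‖ ^ 2) := by
    have := circleAverage_fun_smul (c := (0:ℂ)) (R := r) (a := (1 / 1000 : ℝ))
      (f := fun t : ℂ => ‖a + t • b‖ ^ 2)
    simp only [smul_eq_mul] at this
    rw [this, average_norm_sq]
  rw [circleAverage_fun_add (circleIntegrable_of_sphere hr.le continuousOn_const) i2,
    circleAverage_const, e1]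
  have : 0 ≤ r ^ 2 * ‖b‖ ^ 2 := by positivity
  linarith

lemma E_le {x : EuclideanSpace ℂ (Fin 3)} (hx : x ∈ Mset) : E x ≤ 13 / 1000 := by
  unfold E
  have h : ‖x‖ ^ 2 = ‖x 0‖ ^ 2 + ‖x 1‖ ^ 2 + ‖x 2‖ ^ 2 := by
    rw [EuclideanSpace.norm_sq_eq, Fin.sum_univ_three]
  rw [h]
  have h0 : ‖x 0‖ ^ 2 ≤ 1 := pow_le_one₀ (norm_nonneg _) hx.1.le
  have h1 : ‖x 1‖ ^ 2 ≤ 1 := pow_le_one₀ (norm_nonneg _) hx.2.1.le
  have h2 : ‖x 2‖ ^ 2 ≤ 1 := pow_le_one₀ (norm_nonneg _) hx.2.2.le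
  linarith

lemma E_ge (x : EuclideanSpace ℂ (Fin 3)) : 1 / 100 ≤ E x := by
  unfold E
  have : 0 ≤ ‖x‖ ^ 2 := by positivity
  linarith

open Classical in
/-- the function on the polydisc -/
noncomputable def ΦM (x : EuclideanSpace ℂ (Fin 3)) : ℝ :=
  if ‖x 1‖ < 1 / 4 then max (p.G x) (E x) else p.G x

lemma ΦM_eq_of_gt {x : EuclideanSpace ℂ (Fin 3)} (hx : x ∈ Mset) (h : 1 / 8 < ‖x 1‖) :
    p.ΦM x = p.G x := by
  unfold ΦM
  split_ifs
  · apply max_eq_left
    have h1 := p.G_ge (x := x)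
    have h2 := E_le hx
    nlinarith
  · rfl

lemma ΦM_eq_of_lt {x : EuclideanSpace ℂ (Fin 3)} (h : ‖x 1‖ < 1 / 4) :
    p.ΦM x = max (p.G x) (E x) := by
  unfold ΦM
  rw [if_pos h]

lemma isOpen_lt_coord (r : ℝ) : IsOpen (Mset ∩ {x : EuclideanSpace ℂ (Fin 3) | ‖x 1‖ < r}) := by
  have hc : Continuous (fun x : EuclideanSpace ℂ (Fin 3) => ‖x 1‖) := by fun_prop
  exact isOpen_Mset.inter (isOpen_lt hc continuous_const)

lemma isOpen_gt_coord (r : ℝ) : IsOpen (Mset ∩ {x : EuclideanSpace ℂ (Fin 3) | r < ‖x 1‖}) := by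
  have hc : Continuous (fun x : EuclideanSpace ℂ (Fin 3) => ‖x 1‖) := by fun_prop
  exact isOpen_Mset.inter (isOpen_lt continuous_const hc)

lemma ΦM_cont : ContinuousOn p.ΦM Mset := by
  intro x hx
  apply ContinuousAt.continuousWithinAt
  have hG : ContinuousAt p.G x := p.G_cont.continuousAt (isOpen_Mset.mem_nhds hx)
  by_cases h : ‖x 1‖ < 1 / 4
  · have hc : ContinuousAt (fun x => max (p.G x) (E x)) x := hG.max E_cont.continuousAt
    refine hc.congr ?_
    filter_upwards [(isOpen_lt_coord (1 / 4)).mem_nhds ⟨hx, h⟩] with y hy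
    exact (p.ΦM_eq_of_lt hy.2).symm
  · push Not at h
    refine hG.congr ?_
    filter_upwards [(isOpen_gt_coord (1 / 8)).mem_nhds ⟨hx, by
      show 1 / 8 < ‖x 1‖
      linarith⟩] with y hy
    exact (p.ΦM_eq_of_gt hy.1 hy.2).symm

lemma ΦM_LP {a : EuclideanSpace ℂ (Fin 3)} (ha : a ∈ Mset) : LP p.ΦM a := by
  by_cases h : ‖a 1‖ < 1 / 4
  · refine LP.congr (isOpen_lt_coord (1 / 4)) (H := fun x => max (p.G x) (E x)) ⟨ha, h⟩
      (fun x hx => p.ΦM_eq_of_lt hx.2) ?_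
    exact LP.max isOpen_Mset p.G_cont E_cont.continuousOn ha (p.G_LP ha) (E_LP a)
  · push Not at h
    refine LP.congr (isOpen_gt_coord (1 / 8)) (H := p.G) ⟨ha, by
      show 1 / 8 < ‖a 1‖
      linarith⟩ (fun x hx => p.ΦM_eq_of_gt hx.1 hx.2) (p.G_LP ha)

lemma ΦM_le {x : EuclideanSpace ℂ (Fin 3)} (hx : x ∈ Mset) : p.ΦM x ≤ 2 := by
  have h1 := p.G_le hx
  have h2 := E_le hx
  have h3 : ‖x 1‖ ^ 2 ≤ 1 := pow_le_one₀ (norm_nonneg _) hx.2.1.le
  unfold ΦM
  split_ifs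
  · exact max_le (by linarith) (by linarith)
  · linarith

open Classical in
/-- the final function -/
noncomputable def Φ (x : EuclideanSpace ℂ (Fin 3)) : ℝ :=
  if x ∈ Mset then p.ΦM x else
    if h : ∃ k, ‖x 2 - p.q k‖ < p.b k then p.τ h.choose x else 0

lemma Φ_eq_M {x : EuclideanSpace ℂ (Fin 3)} (hx : x ∈ Mset) : p.Φ x = p.ΦM x := by
  unfold Φ
  rw [if_pos hx]

lemma Φ_eq_LT {k : ℕ} {x : EuclideanSpace ℂ (Fin 3)} (hx : x ∈ LT p.w p.q p.b k) :
    p.Φ x = p.τ k x := by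
  by_cases hM : x ∈ Mset
  · rw [p.Φ_eq_M hM]
    have h1 : ‖x 1 - p.w k‖ < p.b k := by
      rcases hx.2 with h | h
      · exact h
      · exfalso
        have h3 : ‖(3:ℂ)‖ ≤ ‖x 0 - 3‖ + ‖x 0‖ := by
          calc ‖(3:ℂ)‖ = ‖x 0 - (x 0 - 3)‖ := by ring_nf
            _ ≤ ‖x 0‖ + ‖x 0 - 3‖ := norm_sub_le _ _
            _ = _ := by ring
        have h4 : ‖(3:ℂ)‖ = 3 := by norm_num
        have h5 := hM.1
        linarith
    have h2 : 1 / 8 < ‖x 1‖ := by
      have h3 := norm_sub_norm_le (p.w k) (x 1)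
      rw [p.hw k, norm_sub_rev] at h3
      have := p.hbη k
      have := p.hη1 k
      linarith
    rw [p.ΦM_eq_of_gt hM h2]
    exact p.G_eq_τ hM h1 hx.1
  · unfold Φ
    rw [if_neg hM]
    have hex : ∃ k, ‖x 2 - p.q k‖ < p.b k := ⟨k, hx.1⟩
    rw [dif_pos hex]
    have : hex.choose = k :=
      p.hdisj _ _ (x 2) (hex.choose_spec.trans (p.hbs _)) (hx.1.trans (p.hbs k))
    rw [this]

lemma x2_lt {k : ℕ} {x : EuclideanSpace ℂ (Fin 3)} (hx : x ∈ LT p.w p.q p.b k) : ‖x 2‖ < 1 := by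
  have h1 := norm_sub_norm_le (x 2) (p.q k)
  have h2 := p.hq k
  have h3 := hx.1
  have := p.hbη k
  have := p.hη1 k
  linarith

lemma Φ_cont : ContinuousOn p.Φ (Om p.w p.q p.b) := by
  intro x hx
  apply ContinuousAt.continuousWithinAt
  rcases hx with hx | hx
  · refine (p.ΦM_cont.continuousAt (isOpen_Mset.mem_nhds hx)).congr ?_
    filter_upwards [isOpen_Mset.mem_nhds hx] with y hy
    exact (p.Φ_eq_M hy).symm
  · rw [mem_iUnion] at hx
    obtain ⟨k, hk⟩ := hx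
    have ho : IsOpen {x : EuclideanSpace ℂ (Fin 3) | ‖x 2‖ < 1} :=
      isOpen_lt (by fun_prop) continuous_const
    refine ((p.τ_psh k).1.continuousAt (ho.mem_nhds (p.x2_lt hk))).congr ?_
    filter_upwards [(isOpen_LT p.w p.q p.b k).mem_nhds hk] with y hy
    exact (p.Φ_eq_LT hy).symm

lemma Φ_psh : IsPSH (Om p.w p.q p.b) p.Φ := by
  refine IsPSH.of_local p.Φ_cont (fun a ha => ?_)
  rcases ha with ha | ha
  · exact LP.congr isOpen_Mset ha (fun x hx => p.Φ_eq_M hx) (p.ΦM_LP ha)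
  · rw [mem_iUnion] at ha
    obtain ⟨k, hk⟩ := ha
    have ho : IsOpen {x : EuclideanSpace ℂ (Fin 3) | ‖x 2‖ < 1} :=
      isOpen_lt (by fun_prop) continuous_const
    exact LP.congr (isOpen_LT p.w p.q p.b k) hk (fun x hx => p.Φ_eq_LT hx)
      ((p.τ_psh k).lp ho (p.x2_lt hk))

lemma Φ_le {x : EuclideanSpace ℂ (Fin 3)} (hx : x ∈ Om p.w p.q p.b) : p.Φ x ≤ 2 := by
  rcases hx with hx | hx
  · rw [p.Φ_eq_M hx]
    exact p.ΦM_le hx
  · rw [mem_iUnion] at hx
    obtain ⟨k, hk⟩ := hx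
    rw [p.Φ_eq_LT hk]
    exact p.τ_le (p.x2_lt hk)

/-- the `C⁰` side -/
theorem not_mem_core_zero : (0 : EuclideanSpace ℂ (Fin 3)) ∉ core 0 (Om p.w p.q p.b) := by
  rintro ⟨_, hnot⟩
  apply hnot
  refine ⟨p.Φ, ?_, p.Φ_psh, ⟨2, ?_⟩, ?_⟩
  · have : ((0 : ℕ∞) : WithTop ℕ∞) = 0 := rfl
    rw [this, contDiffOn_zero]
    exact p.Φ_cont
  · rintro _ ⟨x, hx, rfl⟩
    exact p.Φ_le hx
  · refine ⟨Mset ∩ {x | ‖x 1‖ < 1 / 16}, isOpen_lt_coord _, fun x hx => Or.inl hx.1, ?_, 1 / 1000,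
      by norm_num, ?_⟩
    · refine ⟨by simp [Mset], by simp⟩
    · have heq : ∀ x ∈ Mset ∩ {x : EuclideanSpace ℂ (Fin 3) | ‖x 1‖ < 1 / 16},
          p.Φ x - 1 / 1000 * ‖x‖ ^ 2 = 1 / 100 := by
        intro x hx
        have h1 : ‖x 1‖ < 1 / 16 := hx.2
        rw [p.Φ_eq_M hx.1, p.ΦM_eq_of_lt (by linarith)]
        have h2 := p.G_le hx.1
        have h3 := E_ge x
        have h4 : ‖x 1‖ ^ 2 ≤ 1 / 256 := by nlinarith [norm_nonneg (x 1)]
        rw [max_eq_right (by linarith)]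
        unfold E
        ring
      exact IsPSH.congr (H := fun _ => 1 / 100)
        (IsPSH.of_local continuousOn_const (fun a _ => LP.const _ a)) heq

end Par

end Pool.Agent.Work.MP_63d28d_an
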