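import Pool.Agent.Work.MP_63d28d_an.Defs
import Pool.Agent.Work.MP_63d28d_an.Sub

open Real Metric Set Filter Topology

namespace Pool.Agent.Work.MP_63d28d_an

variable {E : Type*} [NormedAddCommGroup E] [NormedSpace ℂ E]

/-- local plurisubharmonicity at a point -/
def LP (F : E → ℝ) (a : E) : Prop :=
  ∀ b : E, ∃ r0 > 0, ∀ r, 0 < r → r < r0 → F a ≤ circleAverage (fun t : ℂ => F (a + t • b)) 0 r

/-- averages over circles of radius `r` in terms of unit circles -/
lemma average_scale (F : E → ℝ) (a b : E) (r : ℝ) :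
    circleAverage (fun t : ℂ => F (a + t • b)) 0 r =
      circleAverage (fun t : ℂ => F (a + t • ((r : ℂ) • b))) 0 1 := by
  rw [circleAverage_eq_circleAverage_zero_one]
  congr 1
  ext z
  simp only [add_zero, smul_smul]
  rw [mul_comm]

lemma IsPSH.lp {U : Set E} {F : E → ℝ} (hF : IsPSH U F) (hU : IsOpen U) {a : E} (ha : a ∈ U) :
    LP F a := by
  intro b
  obtain ⟨δ, hδ, hball⟩ := Metric.isOpen_iff.1 hU a ha
  refine ⟨δ / (‖b‖ + 1), by positivity, fun r hr hrr => ?_⟩
  rw [average_scale]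
  apply hF.2
  intro t ht
  apply hball
  rw [mem_ball, dist_eq_norm, add_sub_cancel_left, norm_smul, norm_smul]
  rw [lt_div_iff₀ (by positivity)] at hrr
  simp only [Complex.norm_real, norm_eq_abs, abs_of_pos hr]
  calc ‖t‖ * (r * ‖b‖) ≤ 1 * (r * ‖b‖) := by gcongr
    _ ≤ r * (‖b‖ + 1) := by nlinarith
    _ < δ := hrr

/-- the small circles stay inside -/
lemma exists_radius {U : Set E} (hU : IsOpen U) {a : E} (ha : a ∈ U) (b : E) :
    ∃ r0 > 0, ∀ t : ℂ, ‖t‖ < r0 → a + t • b ∈ U := by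
  obtain ⟨δ, hδ, hball⟩ := Metric.isOpen_iff.1 hU a ha
  refine ⟨δ / (‖b‖ + 1), by positivity, fun t ht => ?_⟩
  apply hball
  rw [mem_ball, dist_eq_norm, add_sub_cancel_left, norm_smul]
  rw [lt_div_iff₀ (by positivity)] at ht
  nlinarith [norm_nonneg t, norm_nonneg b]

lemma circleIntegrable_line {U : Set E} {F : E → ℝ} (hF : ContinuousOn F U) {a b : E} {r : ℝ}
    (hr : 0 ≤ r) (h : ∀ t : ℂ, ‖t‖ = r → a + t • b ∈ U) :
    CircleIntegrable (fun t : ℂ => F (a + t • b)) 0 r := by
  apply circleIntegrable_of_sphere hr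
  apply hF.comp (by fun_prop)
  intro t ht
  apply h
  simpa using ht

/-- support from below -/
lemma LP.of_support {U : Set E} (hU : IsOpen U) {F H : E → ℝ} (hF : ContinuousOn F U)
    (hH : ContinuousOn H U) {a : E} (ha : a ∈ U) (hle : ∀ x ∈ U, H x ≤ F x) (heq : F a ≤ H a)
    (hL : LP H a) : LP F a := by
  intro b
  obtain ⟨r1, hr1, h1⟩ := exists_radius hU ha b
  obtain ⟨r2, hr2, h2⟩ := hL b
  refine ⟨min r1 r2, lt_min hr1 hr2, fun r hr hrr => ?_⟩
  have hr1' : r < r1 := lt_of_lt_of_le hrr (min_le_left _ _)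
  have hr2' : r < r2 := lt_of_lt_of_le hrr (min_le_right _ _)
  have hin : ∀ t : ℂ, ‖t‖ = r → a + t • b ∈ U := fun t ht => h1 t (by rw [ht]; exact hr1')
  calc F a ≤ H a := heq
    _ ≤ circleAverage (fun t : ℂ => H (a + t • b)) 0 r := h2 r hr hr2'
    _ ≤ circleAverage (fun t : ℂ => F (a + t • b)) 0 r := by
      refine circleAverage_mono (circleIntegrable_line hH hr.le hin)
        (circleIntegrable_line hF hr.le hin) (fun t ht => ?_)
      rw [abs_of_pos hr] at ht
      exact hle _ (hin t (by simpa using ht))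

/-- local plurisubharmonicity only depends on the germ -/
lemma LP.congr {U : Set E} (hU : IsOpen U) {F H : E → ℝ} {a : E} (ha : a ∈ U)
    (heq : ∀ x ∈ U, F x = H x) (hL : LP H a) : LP F a := by
  intro b
  obtain ⟨r1, hr1, h1⟩ := exists_radius hU ha b
  obtain ⟨r2, hr2, h2⟩ := hL b
  refine ⟨min r1 r2, lt_min hr1 hr2, fun r hr hrr => ?_⟩
  have hr1' : r < r1 := lt_of_lt_of_le hrr (min_le_left _ _)
  have hr2' : r < r2 := lt_of_lt_of_le hrr (min_le_right _ _)
  have hin : ∀ t : ℂ, ‖t‖ = r → a + t • b ∈ U := fun t ht => h1 t (by rw [ht]; exact hr1')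
  have : circleAverage (fun t : ℂ => F (a + t • b)) 0 r = circleAverage (fun t : ℂ => H (a + t • b)) 0 r := by
    apply circleAverage_congr_sphere
    intro t ht
    rw [abs_of_pos hr] at ht
    exact heq _ (hin t (by simpa using ht))
  rw [this, heq a ha]
  exact h2 r hr hr2'

lemma LP.add {U : Set E} (hU : IsOpen U) {F H : E → ℝ} (hF : ContinuousOn F U)
    (hH : ContinuousOn H U) {a : E} (ha : a ∈ U) (h1 : LP F a) (h2 : LP H a) :
    LP (fun x => F x + H x) a := by
  intro b
  obtain ⟨r1, hr1, h1⟩ := h1 b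
  obtain ⟨r2, hr2, h2⟩ := h2 b
  obtain ⟨r3, hr3, h3⟩ := exists_radius hU ha b
  refine ⟨min r1 (min r2 r3), lt_min hr1 (lt_min hr2 hr3), fun r hr hrr => ?_⟩
  have hr1' : r < r1 := lt_of_lt_of_le hrr (min_le_left _ _)
  have hr2' : r < r2 := lt_of_lt_of_le hrr ((min_le_right _ _).trans (min_le_left _ _))
  have hr3' : r < r3 := lt_of_lt_of_le hrr ((min_le_right _ _).trans (min_le_right _ _))
  have hin : ∀ t : ℂ, ‖t‖ = r → a + t • b ∈ U := fun t ht => h3 t (by rw [ht]; exact hr3')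
  rw [circleAverage_fun_add (circleIntegrable_line hF hr.le hin) (circleIntegrable_line hH hr.le hin)]
  exact add_le_add (h1 r hr hr1') (h2 r hr hr2')

lemma LP.const (c : ℝ) (a : E) : LP (fun _ : E => c) a := by
  intro b
  refine ⟨1, one_pos, fun r _ _ => ?_⟩
  rw [circleAverage_const]

lemma LP.const_mul {F : E → ℝ} {a : E} (h : LP F a) {c : ℝ} (hc : 0 ≤ c) :
    LP (fun x => c * F x) a := by
  intro b
  obtain ⟨r1, hr1, h1⟩ := h b
  refine ⟨r1, hr1, fun r hr hrr => ?_⟩
  have : circleAverage (fun t : ℂ => c * F (a + t • b)) 0 r =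
      c * circleAverage (fun t : ℂ => F (a + t • b)) 0 r := by
    have := circleAverage_fun_smul (c := (0:ℂ)) (R := r) (a := c) (f := fun t : ℂ => F (a + t • b))
    simpa [smul_eq_mul] using this
  rw [this]
  exact mul_le_mul_of_nonneg_left (h1 r hr hrr) hc

/-- local implies global -/
theorem IsPSH.of_local {U : Set E} {F : E → ℝ} (hF : ContinuousOn F U)
    (hL : ∀ a ∈ U, LP F a) : IsPSH U F := by
  refine ⟨hF, fun a b hab => ?_⟩
  have hc : ContinuousOn (fun t : ℂ => F (a + t • b)) (closedBall 0 1) := by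
    apply hF.comp (by fun_prop)
    intro t ht
    exact hab t (by simpa using ht)
  have := local_to_global hc (by
    intro z hz
    have hz' : a + z • b ∈ U := hab z (by
      have := mem_ball_zero_iff.1 hz
      exact this.le)
    obtain ⟨r0, hr0, h0⟩ := hL _ hz' b
    refine ⟨r0, hr0, fun r hr hrr => ?_⟩
    have h1 := h0 r hr hrr
    rw [← circleAverage_map_add_const (c := z)]
    have e : (fun t : ℂ => F (a + (t + z) • b)) = fun t : ℂ => F (a + z • b + t • b) := by
      ext t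
      rw [add_smul]
      congr 1
      abel
    rw [e]
    exact h1)
  simpa using this

lemma IsPSH.mono {U V : Set E} {F : E → ℝ} (h : IsPSH U F) (hVU : V ⊆ U) : IsPSH V F :=
  ⟨h.1.mono hVU, fun a b hab => h.2 a b (fun t ht => hVU (hab t ht))⟩

lemma IsPSH.congr {U : Set E} {F H : E → ℝ} (h : IsPSH U H) (heq : ∀ x ∈ U, F x = H x) :
    IsPSH U F := by
  refine ⟨h.1.congr heq, fun a b hab => ?_⟩
  have h0 : a ∈ U := by simpa using hab 0 (by simp)
  have : circleAverage (fun t : ℂ => F (a + t • b)) 0 1 = circleAverage (fun t : ℂ => H (a + t • b)) 0 1 := by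
    apply circleAverage_congr_sphere
    intro t ht
    exact heq _ (hab t (by simp at ht; exact ht.le))
  rw [this, heq a h0]
  exact h.2 a b hab

/-- a uniformly convergent series of plurisubharmonic functions -/
theorem IsPSH.tsum {U : Set E} {f : ℕ → E → ℝ} {β : ℕ → ℝ} (hβ : Summable β)
    (hf : ∀ k, IsPSH U (f k)) (hb : ∀ k, ∀ x ∈ U, |f k x| ≤ β k) :
    IsPSH U (fun x => ∑' k, f k x) := by
  refine ⟨continuousOn_tsum (fun k => (hf k).1) hβ (fun k x hx => hb k x hx), fun a b hab => ?_⟩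
  have h0 : a ∈ U := by simpa using hab 0 (by simp)
  have hin : ∀ θ : ℝ, a + (circleMap 0 1 θ) • b ∈ U := fun θ => hab _ (by simp)
  have hcont : ∀ k, Continuous (fun θ : ℝ => f k (a + (circleMap 0 1 θ) • b)) := fun k =>
    (hf k).1.comp_continuous (by
      have := continuous_circleMap 0 1
      fun_prop) hin
  have hsum1 : Summable (fun k => f k a) :=
    Summable.of_norm_bounded hβ (fun k => by rw [norm_eq_abs]; exact hb k a h0)
  have hs := intervalIntegral.hasSum_integral_of_dominated_convergence (μ := MeasureTheory.volume)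
    (a := 0) (b := 2 * π) (F := fun k θ => f k (a + (circleMap 0 1 θ) • b))
    (f := fun θ => ∑' k, f k (a + (circleMap 0 1 θ) • b)) (fun k _ => β k)
    (fun k => (hcont k).aestronglyMeasurable)
    (fun k => Filter.Eventually.of_forall (fun θ _ => by rw [norm_eq_abs]; exact hb k _ (hin θ)))
    (Filter.Eventually.of_forall (fun θ _ => hβ))
    (by simp)
    (Filter.Eventually.of_forall (fun θ _ =>
      (Summable.of_norm_bounded hβ (fun k => by rw [norm_eq_abs]; exact hb k _ (hin θ))).hasSum))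
  have hs2 := hs.mul_left (2 * π)⁻¹
  have h3 : ∀ k, f k a ≤ (2 * π)⁻¹ * ∫ θ in (0:ℝ)..(2 * π), f k (a + (circleMap 0 1 θ) • b) := by
    intro k
    have := (hf k).2 a b hab
    rw [circleAverage_def, smul_eq_mul] at this
    exact this
  rw [circleAverage_def, smul_eq_mul, ← hs2.tsum_eq]
  exact Summable.tsum_le_tsum h3 hsum1 hs2.summable

lemma tangent_ineq {x y γ : ℝ} (hx : 0 < x) (hy : 0 < y) :
    y ^ γ * (1 + γ * (log x - log y)) ≤ x ^ γ := by
  have h1 : x ^ γ = y ^ γ * Real.exp (γ * (log x - log y)) := by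
    rw [Real.rpow_def_of_pos hx, Real.rpow_def_of_pos hy, ← Real.exp_add]
    congr 1
    ring
  rw [h1]
  have := Real.add_one_le_exp (γ * (log x - log y))
  have hy' : 0 < y ^ γ := Real.rpow_pos_of_pos hy γ
  apply mul_le_mul_of_nonneg_left _ hy'.le
  linarith

lemma circleAverage_log_affine {c m : ℂ} {r : ℝ} (hr : 0 < r) (h : r * ‖m‖ < ‖c‖) :
    circleAverage (fun t : ℂ => log ‖c + t * m‖) 0 r = log ‖c‖ := by
  have h1 : circleAverage (fun t : ℂ => log ‖c + t * m‖) 0 r = log ‖c + 0 * m‖ := by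
    apply InnerProductSpace.HarmonicOnNhd.circleAverage_eq (f := fun t : ℂ => log ‖c + t * m‖)
    intro x hx
    apply AnalyticAt.harmonicAt_log_norm (by fun_prop)
    intro h0
    rw [mem_closedBall, dist_zero_right, abs_of_pos hr] at hx
    have h2 : ‖c‖ = ‖x * m‖ := by
      rw [show c = -(x * m) from eq_neg_of_add_eq_zero_left h0, norm_neg]
    rw [norm_mul] at h2
    have : ‖x‖ * ‖m‖ ≤ r * ‖m‖ := by gcongr
    linarith
  rw [h1]
  simp

lemma LP.rpow_affine (ℓ : E →L[ℂ] ℂ) (c : ℂ) {γ : ℝ} (hγ : 0 < γ) (a : E) :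
    LP (fun x => ‖ℓ x - c‖ ^ γ) a := by
  intro b
  by_cases h0 : ℓ a - c = 0
  · refine ⟨1, one_pos, fun r hr _ => ?_⟩
    beta_reduce
    rw [h0, norm_zero, Real.zero_rpow hγ.ne']
    exact circleAverage_nonneg_of_nonneg (fun t _ => by positivity)
  · have hpos : 0 < ‖ℓ a - c‖ := norm_pos_iff.2 h0
    refine ⟨‖ℓ a - c‖ / (‖ℓ b‖ + 1), by positivity, fun r hr hrr => ?_⟩
    rw [lt_div_iff₀ (by positivity)] at hrr
    have hr2 : r * ‖ℓ b‖ < ‖ℓ a - c‖ := by nlinarith [norm_nonneg (ℓ b)]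
    have key := circleAverage_log_affine hr hr2
    have hne : ∀ t : ℂ, ‖t‖ = r → 0 < ‖ℓ a - c + t * ℓ b‖ := by
      intro t ht
      have h1 : ‖ℓ a - c‖ ≤ ‖ℓ a - c + t * ℓ b‖ + ‖t * ℓ b‖ := by
        calc ‖ℓ a - c‖ = ‖(ℓ a - c + t * ℓ b) - t * ℓ b‖ := by ring_nf
          _ ≤ _ := norm_sub_le _ _
      rw [norm_mul, ht] at h1
      linarith
    have i1 : CircleIntegrable (fun t : ℂ => log ‖ℓ a - c + t * ℓ b‖) 0 r := by
      apply circleIntegrable_of_sphere hr.le
      apply ContinuousOn.log (by fun_prop)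
      intro t ht
      exact (hne t (by simpa using ht)).ne'
    have i0 : ∀ k : ℝ, CircleIntegrable (fun _ : ℂ => k) 0 r := fun k =>
      circleIntegrable_of_sphere hr.le continuousOn_const
    have i2 : CircleIntegrable (fun t : ℂ => ‖ℓ (a + t • b) - c‖ ^ γ) 0 r := by
      apply circleIntegrable_of_sphere hr.le
      apply Continuous.continuousOn
      apply Continuous.rpow_const (by fun_prop)
      intro t
      right; exact hγ.le
    set K := ‖ℓ a - c‖ ^ γ with hK
    have i3 : CircleIntegrable (fun t : ℂ => γ * K * log ‖ℓ a - c + t * ℓ b‖) 0 r := by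
      have := i1.const_fun_smul (a := γ * K)
      simpa [smul_eq_mul] using this
    have e1 : circleAverage (fun t : ℂ => γ * K * log ‖ℓ a - c + t * ℓ b‖) 0 r =
        γ * K * log ‖ℓ a - c‖ := by
      have := circleAverage_fun_smul (c := (0:ℂ)) (R := r) (a := γ * K)
        (f := fun t : ℂ => log ‖ℓ a - c + t * ℓ b‖)
      simp only [smul_eq_mul] at this
      rw [this, key]
    have e2 : circleAverage (fun t : ℂ => K * (1 - γ * log ‖ℓ a - c‖) + γ * K * log ‖ℓ a - c + t * ℓ b‖) 0 r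
        = K := by
      rw [circleAverage_fun_add (i0 _) i3, circleAverage_const, e1]
      ring
    calc K = _ := e2.symm
      _ ≤ circleAverage (fun t : ℂ => ‖ℓ (a + t • b) - c‖ ^ γ) 0 r := by
        refine circleAverage_mono ((i0 _).add i3) i2 (fun t ht => ?_)
        rw [abs_of_pos hr] at ht
        have ht' : ‖t‖ = r := by simpa using ht
        have e3 : ℓ (a + t • b) - c = ℓ a - c + t * ℓ b := by
          rw [map_add, map_smul, smul_eq_mul]; ring
        rw [e3]
        have := tangent_ineq (γ := γ) (hne t ht') hpos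
        rw [← hK] at this
        calc _ = K * (1 + γ * (log ‖ℓ a - c + t * ℓ b‖ - log ‖ℓ a - c‖)) := by ring
          _ ≤ _ := this

lemma circleIntegrable_poly_re (P : Polynomial ℂ) {c : ℂ} {r : ℝ} (hr : 0 ≤ r) :
    CircleIntegrable (fun t : ℂ => (P.eval t).re) c r :=
  circleIntegrable_of_sphere hr (Complex.continuous_re.comp P.continuous).continuousOn

lemma LP.max {U : Set E} (hU : IsOpen U) {F H : E → ℝ} (hF : ContinuousOn F U)
    (hH : ContinuousOn H U) {a : E} (ha : a ∈ U) (h1 : LP F a) (h2 : LP H a) :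
    LP (fun x => max (F x) (H x)) a := by
  have hc : ContinuousOn (fun x => Max.max (F x) (H x)) U := ContinuousOn.sup hF hH
  rcases le_total (F a) (H a) with h | h
  · exact LP.of_support hU hc hH ha (fun x _ => le_max_right _ _) (by rw [max_eq_right h]) h2
  · exact LP.of_support hU hc hF ha (fun x _ => le_max_left _ _) (by rw [max_eq_left h]) h1

/-- the average of the squared norm -/
lemma average_norm_sq {n : ℕ} (a b : EuclideanSpace ℂ (Fin n)) (r : ℝ) :
    circleAverage (fun t : ℂ => ‖a + t • b‖ ^ 2) 0 r = ‖a‖ ^ 2 + r ^ 2 * ‖b‖ ^ 2 := by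
  rw [← circleAverage_abs_radius]
  have e : ∀ t : ℂ, ‖a + t • b‖ ^ 2 = ‖a‖ ^ 2 + ‖t‖ ^ 2 * ‖b‖ ^ 2 +
      ((Polynomial.C (2 * inner ℂ a b) * Polynomial.X : Polynomial ℂ).eval t).re := by
    intro t
    rw [norm_add_sq (𝕜 := ℂ), inner_smul_right, norm_smul]
    simp only [Polynomial.eval_mul, Polynomial.eval_C, Polynomial.eval_X, RCLike.re_eq_complex_re]
    have : (2 * inner ℂ a b * t).re = 2 * (t * inner ℂ a b).re := by
      rw [show 2 * inner ℂ a b * t = ((2:ℝ):ℂ) * (t * inner ℂ a b) by push_cast; ring]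
      rw [Complex.re_ofReal_mul]
    rw [this]
    ring
  have e2 : circleAverage (fun t : ℂ => ‖a + t • b‖ ^ 2) 0 |r| =
      circleAverage (fun t : ℂ => (‖a‖ ^ 2 + r ^ 2 * ‖b‖ ^ 2) +
        ((Polynomial.C (2 * inner ℂ a b) * Polynomial.X : Polynomial ℂ).eval t).re) 0 |r| := by
    apply circleAverage_congr_sphere
    intro t ht
    rw [abs_abs] at ht
    beta_reduce
    rw [e t]
    have : ‖t‖ = |r| := by simpa using ht
    rw [this, sq_abs]
  rw [e2, circleAverage_fun_add (circleIntegrable_of_sphere (abs_nonneg r) continuousOn_const)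
    (circleIntegrable_poly_re _ (abs_nonneg r)),
    circleAverage_const, circleAverage_re_poly]
  simp

/-- squares of coordinates -/
lemma LP.sq_affine (ℓ : E →L[ℂ] ℂ) (a : E) : LP (fun x => ‖ℓ x‖ ^ 2) a := by
  intro b
  refine ⟨1, one_pos, fun r hr _ => ?_⟩
  have e : ∀ t : ℂ, ‖ℓ (a + t • b)‖ ^ 2 = ‖ℓ a‖ ^ 2 + ‖t‖ ^ 2 * ‖ℓ b‖ ^ 2 +
      ((Polynomial.C (2 * inner ℂ (ℓ a) (ℓ b)) * Polynomial.X : Polynomial ℂ).eval t).re := by
    intro t
    rw [map_add, map_smul, norm_add_sq (𝕜 := ℂ), inner_smul_right, norm_smul]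
    simp only [Polynomial.eval_mul, Polynomial.eval_C, Polynomial.eval_X, RCLike.re_eq_complex_re]
    have : (2 * inner ℂ (ℓ a) (ℓ b) * t).re = 2 * (t * inner ℂ (ℓ a) (ℓ b)).re := by
      rw [show 2 * inner ℂ (ℓ a) (ℓ b) * t = ((2:ℝ):ℂ) * (t * inner ℂ (ℓ a) (ℓ b)) by push_cast; ring]
      rw [Complex.re_ofReal_mul]
    rw [this]
    ring
  have i1 : CircleIntegrable (fun t : ℂ => ‖ℓ (a + t • b)‖ ^ 2) 0 r :=
    circleIntegrable_of_sphere hr.le (by fun_prop)
  have i2 : CircleIntegrable (fun t : ℂ => ‖ℓ a‖ ^ 2 +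
      ((Polynomial.C (2 * inner ℂ (ℓ a) (ℓ b)) * Polynomial.X : Polynomial ℂ).eval t).re) 0 r := by
    apply circleIntegrable_of_sphere hr.le
    exact continuousOn_const.add (Complex.continuous_re.comp (Polynomial.continuous _)).continuousOn
  calc ‖ℓ a‖ ^ 2 = circleAverage (fun t : ℂ => ‖ℓ a‖ ^ 2 +
      ((Polynomial.C (2 * inner ℂ (ℓ a) (ℓ b)) * Polynomial.X : Polynomial ℂ).eval t).re) 0 r := by
        rw [circleAverage_fun_add (circleIntegrable_of_sphere hr.le continuousOn_const)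
          (circleIntegrable_poly_re _ hr.le),
          circleAverage_const, circleAverage_re_poly]
        simp
    _ ≤ _ := by
      refine circleAverage_mono i2 i1 (fun t _ => ?_)
      beta_reduce
      rw [e t]
      have : 0 ≤ ‖t‖ ^ 2 * ‖ℓ b‖ ^ 2 := by positivity
      linarith

end Pool.Agent.Work.MP_63d28d_an
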